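import Mathlib

/-! Depth of the quotients of a local ring, and Hartshorne's connectedness theorem. -/

namespace Pool.Agent.Lib.MP_41050a_ag.QM

open IsLocalRing Ideal

set_option linter.unusedSectionVars false

variable {R : Type} [CommRing R] {I J c : Ideal R} {x y z : R} {n : ℕ}

/-- `y` is not a zero divisor modulo `I`. -/
def Rg (I : Ideal R) (y : R) : Prop := ∀ a, y * a ∈ I → a ∈ I

/-- There is a chain of primes of length `n` above `c`. -/
def Ch (c : Ideal R) (n : ℕ) : Prop :=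
  ∃ p : PrimeSpectrum R, c ≤ p.asIdeal ∧ (n : ℕ∞) ≤ Order.coheight p

/-- The quotient by `I` has depth at least `n`. -/
def Dp [IsLocalRing R] : ℕ → Ideal R → Prop
  | 0, I => I ≤ maximalIdeal R
  | n + 1, I => ∃ y ∈ maximalIdeal R, Rg I y ∧ Dp n (I ⊔ span {y})

theorem Ch.mono (h : Ch c n) (h1 : J ≤ c) {m : ℕ} (h2 : m ≤ n) : Ch J m :=
  h.imp fun _ hp => ⟨h1.trans hp.1, (Nat.cast_le.2 h2).trans hp.2⟩

theorem mem_add : z ∈ I ⊔ span {y} ↔ ∃ w, z - y * w ∈ I := by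
  rw [Submodule.mem_sup]
  constructor
  · rintro ⟨i, hi, _, h, rfl⟩
    obtain ⟨w, rfl⟩ := mem_span_singleton'.1 h
    exact ⟨w, by simpa [mul_comm] using hi⟩
  · rintro ⟨w, h⟩
    exact ⟨_, h, y * w, mem_span_singleton'.2 ⟨w, mul_comm _ _⟩, sub_add_cancel _ _⟩

theorem Rg.swap (h1 : Rg I x) (h2 : Rg (I ⊔ span {x}) z) : Rg (I ⊔ span {z}) x := fun a ha => by
  obtain ⟨b, hb⟩ := mem_add.1 ha
  obtain ⟨w, hw⟩ := mem_add.1 (h2 b (mem_add.2 ⟨a, by simpa using I.neg_mem hb⟩))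
  refine mem_add.2 ⟨w, h1 _ ?_⟩
  convert I.add_mem hb (I.mul_mem_left z hw) using 1
  ring

variable [IsNoetherianRing R]

theorem ass_of {p : Ideal R} (h : p ∈ associatedPrimes R (R ⧸ I)) :
    p.IsPrime ∧ ∃ a ∉ I, ∀ r, r ∈ p ↔ r * a ∈ I := by
  obtain ⟨hp, x, rfl⟩ := isAssociatedPrime_iff.1 h
  obtain ⟨a, rfl⟩ := Ideal.Quotient.mk_surjective x
  have e : ∀ r, r ∈ (⊥ : Submodule R (R ⧸ I)).colon {Ideal.Quotient.mk I a} ↔ r * a ∈ I :=
    fun r => by
      rw [Submodule.mem_colon_singleton, Submodule.mem_bot, ← Ideal.Quotient.eq_zero_iff_mem]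
      rfl
  exact ⟨hp, a, fun ha => hp.ne_top ((eq_top_iff_one _).2 ((e 1).2 (by simpa using ha))), e⟩

theorem avoid (I J c : Ideal R) : (∃ y ∈ c, Rg I y ∧ Rg J y) ∨
    (∃ a ∉ I, ∀ r ∈ c, r * a ∈ I) ∨ ∃ a ∉ J, ∀ r ∈ c, r * a ∈ J := by
  classical
  have hf := (associatedPrimes.finite R (R ⧸ I)).union (associatedPrimes.finite R (R ⧸ J))
  by_cases h : (c : Set R) ⊆ ⋃ p ∈ (↑hf.toFinset : Set (Ideal R)), id p
  · obtain ⟨p, hp, h1⟩ := (subset_union_prime ⊤ ⊤ fun p hp _ _ =>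
      (hf.mem_toFinset.1 hp).elim (fun h => (ass_of h).1) fun h => (ass_of h).1).1 h
    refine Or.inr ((hf.mem_toFinset.1 hp).imp (fun h => ?_) fun h => ?_) <;>
      exact (ass_of h).2.imp fun a ha => ⟨ha.1, fun r hr => (ha.2 r).1 (h1 hr)⟩
  · obtain ⟨y, hy, h1⟩ := Set.not_subset.1 h
    have key : ∀ L : Ideal R, (∀ p ∈ associatedPrimes R (R ⧸ L), y ∉ p) → Rg L y :=
      fun L hL a ha => by_contra fun h0 => by
        have : y ∈ ⋃ p ∈ associatedPrimes R (R ⧸ L), (p : Set R) := by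
          rw [biUnion_associatedPrimes_eq_zero_divisors]
          exact ⟨Ideal.Quotient.mk L a, fun e => h0 (Ideal.Quotient.eq_zero_iff_mem.1 e),
            Ideal.Quotient.eq_zero_iff_mem.2 ha⟩
        obtain ⟨p, hp, h2⟩ := Set.mem_iUnion₂.1 this
        exact hL p hp h2
    refine Or.inl ⟨y, hy, key I fun p hp h2 => h1 ?_, key J fun p hp h2 => h1 ?_⟩
    · exact Set.mem_iUnion₂.2 ⟨p, hf.mem_toFinset.2 (.inl hp), h2⟩
    · exact Set.mem_iUnion₂.2 ⟨p, hf.mem_toFinset.2 (.inr hp), h2⟩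

variable [IsLocalRing R]

theorem nak (h : J ≤ I ⊔ maximalIdeal R • J) : J ≤ I :=
  Submodule.le_of_le_smul_of_le_jacobson_bot (IsNoetherian.noetherian J)
    (maximalIdeal_le_jacobson _) h

theorem Dp.le (h : Dp n I) : I ≤ maximalIdeal R := by
  induction n generalizing I with
  | zero => exact h
  | succ n ih => exact h.elim fun y hy => le_sup_left.trans (ih hy.2.2)

/-- Associated primes have large coheight. -/
theorem Dp.ch (h : Dp n I) {a : R} (ha : a ∉ I) (hc : ∀ r ∈ c, r * a ∈ I) : Ch (c ⊔ I) n := by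
  induction n generalizing I c a with
  | zero =>
    refine ⟨closedPoint R, sup_le (fun r hr => ?_) h, zero_le⟩
    by_contra hu
    exact ha ((unit_mul_mem_iff_mem I (notMem_maximalIdeal.1 hu)).1 (hc r hr))
  | succ n ih =>
    obtain ⟨x, hx, h1, h2⟩ := h
    obtain ⟨p, hp, h3⟩ := exists_le_isAssociatedPrime_of_isNoetherianRing R
      (Ideal.Quotient.mk I a) fun e => ha (Ideal.Quotient.eq_zero_iff_mem.1 e)
    obtain ⟨pp, b, hb, h4⟩ := ass_of hp
    have h5 : c ≤ p := fun r hr => h3 (by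
      rw [Submodule.mem_colon_singleton, Submodule.mem_bot]
      exact Ideal.Quotient.eq_zero_iff_mem.2 (hc r hr))
    have h6 : I ≤ p := fun r hr => (h4 r).2 (I.mul_mem_right _ hr)
    have mc : ∀ z, z ∈ I.colon p ↔ ∀ r ∈ p, r * z ∈ I := fun z => by
      simp only [Submodule.mem_colon, smul_eq_mul, mul_comm z, SetLike.mem_coe]
    obtain ⟨z, hz, h7⟩ : ∃ z ∈ I.colon p, z ∉ I ⊔ span {x} := by
      by_contra hn
      push Not at hn
      refine hb (nak (J := I.colon p) (fun z hz => ?_) ((mc b).2 fun r hr => (h4 r).1 hr))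
      obtain ⟨w, hw⟩ := mem_add.1 (hn z hz)
      refine Submodule.mem_sup.2 ⟨_, hw, x * w, Submodule.smul_mem_smul hx ((mc w).2
        fun r hr => h1 _ ?_), sub_add_cancel _ _⟩
      convert I.sub_mem ((mc z).1 hz r hr) (I.mul_mem_left r hw) using 1
      ring
    obtain ⟨q, hq, h8⟩ := ih (c := p) h2 h7 fun r hr => mem_sup_left ((mc z).1 hz r hr)
    refine ⟨⟨p, pp⟩, sup_le h5 h6, ?_⟩
    have lt : (⟨p, pp⟩ : PrimeSpectrum R) < q := lt_of_le_of_ne (le_sup_left.trans hq) fun e =>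
      hb (h1 b ((h4 x).1 (show x ∈ (⟨p, pp⟩ : PrimeSpectrum R).asIdeal from
        e ▸ hq (mem_sup_right (mem_sup_right (mem_span_singleton_self x))))))
    exact le_trans (by push_cast; gcongr) (Order.coheight_add_one_le lt)

theorem Dp.cut (h : Dp (n + 1) I) (hy : y ∈ maximalIdeal R) (hr : Rg I y) :
    Dp n (I ⊔ span {y}) := by
  induction n generalizing I y with
  | zero => exact sup_le h.le ((span_singleton_le_iff_mem _).2 hy)
  | succ n ih =>
    obtain ⟨x, hx, h1, h2⟩ := h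
    have no : ∀ a ∉ I ⊔ span {x}, ¬∀ r ∈ maximalIdeal R, r * a ∈ I ⊔ span {x} :=
      fun a ha h => h2.elim fun w hw => ha (hw.2.1 a (h w hw.1))
    rcases avoid (I ⊔ span {x}) (I ⊔ span {y}) (maximalIdeal R) with
      ⟨z, hz, h3, h4⟩ | ⟨a, ha, h3⟩ | ⟨a, ha, h3⟩
    · refine ⟨z, hz, h4, ?_⟩
      rw [sup_right_comm]
      refine ih ⟨x, hx, h1.swap h3, ?_⟩ hy (hr.swap h4)
      rw [sup_right_comm]
      exact ih h2 hz h3
    · exact (no a ha h3).elim
    · obtain ⟨b, hb⟩ := mem_add.1 (h3 x hx)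
      refine (no b (fun h => ha ?_) fun r hr' => ?_).elim
      · obtain ⟨w, hw⟩ := mem_add.1 h
        refine mem_add.2 ⟨w, h1 _ ?_⟩
        convert I.add_mem hb (I.mul_mem_left y hw) using 1
        ring
      · obtain ⟨w, hw⟩ := mem_add.1 (h3 r hr')
        refine mem_add.2 ⟨w, hr _ ?_⟩
        convert I.sub_mem (I.mul_mem_left x hw) (I.mul_mem_left r hb) using 1
        ring

theorem Ch.cut (h : Ch I (n + 1)) (hy : y ∈ maximalIdeal R) : Ch (I ⊔ span {y}) n := by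
  obtain ⟨p, hp, h1⟩ := h
  obtain ⟨s, h2, h3⟩ := Order.exists_series_of_le_coheight p h1
  obtain ⟨t, h4, h5, h6⟩ : ∃ t : LTSeries (PrimeSpectrum R), t.head = p ∧ n + 1 ≤ t.length ∧
      y ∈ t.last.asIdeal := by
    by_cases e : s.last = closedPoint R
    · exact ⟨s, h2, h3.ge, e ▸ hy⟩
    · refine ⟨s.snoc (closedPoint R) (lt_of_le_of_ne (α := PrimeSpectrum R)
        (le_maximalIdeal s.last.2.ne_top) e), by simpa using h2, by simp [h3], ?_⟩
      rw [RelSeries.last_snoc]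
      exact hy
  obtain ⟨q, h7, h8, h9, -⟩ := PrimeSpectrum.exist_ltSeries_mem_one_of_mem_last t h6
  refine ⟨q 1, sup_le (hp.trans ?_) ((span_singleton_le_iff_mem _).2 h7), ?_⟩
  · rw [← h4, h9]
    exact q.head_le 1
  · refine le_trans ?_ (Order.rev_index_le_coheight q 1)
    have : 1 < q.length + 1 := by omega
    rw [Nat.cast_le, Fin.val_rev, Fin.val_one', Nat.mod_eq_of_lt this]
    omega

theorem Ch.list {l : List R} (h : Ch I (n + l.length)) (hl : ∀ y ∈ l, y ∈ maximalIdeal R) :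
    Ch (I ⊔ ofList l) n := by
  induction l generalizing I with
  | nil => simpa using h
  | cons y l ih =>
    rw [ofList_cons, ← sup_assoc]
    exact ih (Ch.cut h (hl y List.mem_cons_self)) fun w hw => hl w (List.mem_cons_of_mem _ hw)

theorem Dp.rg (h : Dp n I) (h1 : ¬Ch (I ⊔ span {y}) n) : Rg I y := fun a ha => by_contra fun h0 =>
  h1 (sup_comm I _ ▸ h.ch h0 fun r hr => by
    obtain ⟨w, rfl⟩ := mem_span_singleton'.1 hr
    exact mul_assoc w y a ▸ I.mul_mem_left w ha)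

theorem Dp.list {l : List R} (h : Dp (n + l.length) I) (hl : ∀ y ∈ l, y ∈ maximalIdeal R)
    (h1 : ¬Ch (I ⊔ ofList l) (n + 1)) : Dp n (I ⊔ ofList l) := by
  induction l generalizing I with
  | nil => simpa using h
  | cons y l ih =>
    have h2 := fun w hw => hl w (List.mem_cons_of_mem _ hw)
    rw [ofList_cons, ← sup_assoc] at h1 ⊢
    exact ih (Dp.cut h (hl y List.mem_cons_self)
      (h.rg fun h3 => h1 (Ch.list (h3.mono le_rfl (by simp; omega)) h2))) h2 h1

theorem not_ch_max : ¬Ch (maximalIdeal R) 1 := by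
  rintro ⟨p, hp, h⟩
  have : IsMax p := fun q hq => (le_maximalIdeal q.2.ne_top).trans hp
  rw [Order.coheight_eq_zero.2 this] at h
  simp at h

/-- A regular local ring is a domain. -/
theorem Dp.prime {l : List R} (h : Dp l.length I) (hl : I ⊔ ofList l = maximalIdeal R) :
    I.IsPrime := by
  induction l generalizing I with
  | nil =>
    rw [ofList_nil, sup_bot_eq] at hl
    exact hl ▸ inferInstance
  | cons y l ih =>
    rw [ofList_cons, ← sup_assoc] at hl
    have h2 : ∀ w ∈ l, w ∈ maximalIdeal R := fun w hw => hl ▸ mem_sup_right (subset_span hw)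
    have hy : y ∈ maximalIdeal R := hl ▸ mem_sup_left (mem_sup_right (mem_span_singleton_self y))
    have hr : Rg I y := h.rg fun h3 =>
      not_ch_max (hl ▸ Ch.list (h3.mono le_rfl (by simp; omega)) h2)
    have := ih (Dp.cut h hy hr) hl
    obtain ⟨p, hp, h3⟩ := exists_minimalPrimes_le (le_sup_left : I ≤ I ⊔ span {y})
    have h4 : y ∉ p := fun h4 => by
      obtain ⟨w, hw, h5⟩ := exists_mul_mem_of_mem_minimalPrimes hp h4
      exact hw (hr w h5)
    refine le_antisymm (nak (J := p) fun z hz => ?_) hp.1.2 ▸ hp.1.1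
    obtain ⟨w, hw⟩ := mem_add.1 (h3 hz)
    refine Submodule.mem_sup.2 ⟨_, hw, y * w, Submodule.smul_mem_smul hy
      ((hp.1.1.mem_or_mem ?_).resolve_left h4), sub_add_cancel _ _⟩
    simpa using p.sub_mem hz (hp.1.2 hw)

theorem Dp.split (h : Dp (n + 2) J) {a b : Ideal R} (ha : a ≤ maximalIdeal R)
    (hb : b ≤ maximalIdeal R) (hab : a * b ≤ J) (h1 : ¬Ch (a ⊔ b) (n + 1)) : a ≤ J ∨ b ≤ J := by
  have pick : ∀ {L : Ideal R} {m : ℕ}, Dp m L → n + 1 ≤ m → ∃ u ∈ a ⊔ b, Rg L u :=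
    fun {L m} hL hm => (avoid L L (a ⊔ b)).elim (fun ⟨u, hu, h, _⟩ => ⟨u, hu, h⟩) fun h => by
      obtain ⟨w, hw, h⟩ := or_self_iff.1 h
      exact (h1 ((hL.ch hw h).mono le_sup_left hm)).elim
  obtain ⟨u, hu, ru⟩ := pick h (by omega)
  obtain ⟨v, hv, rv⟩ := pick (h.cut (sup_le ha hb hu) ru) le_rfl
  obtain ⟨s, hs, t, ht, rfl⟩ := Submodule.mem_sup.1 hu
  obtain ⟨s', hs', t', ht', rfl⟩ := Submodule.mem_sup.1 hv
  obtain ⟨e, he⟩ := mem_add.1 (rv s (mem_add.2 ⟨s', by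
    convert J.sub_mem (hab (mul_mem_mul hs ht')) (hab (mul_mem_mul hs' ht)) using 1
    ring⟩))
  have h2 : e * (1 - e) ∈ J := ru _ (ru _ (by
    convert J.add_mem (hab (mul_mem_mul hs ht)) (J.mul_mem_right (s - t - (s - (s + t) * e)) he)
      using 1
    ring))
  rcases isUnit_or_isUnit_one_sub_self e with h3 | h3
  · have h4 := (unit_mul_mem_iff_mem J h3).1 h2
    refine Or.inr fun w hw => ru w ?_
    convert J.add_mem (hab (mul_mem_mul hs hw)) (J.mul_mem_right w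
      (J.sub_mem (J.mul_mem_left (s + t) h4) he)) using 1
    ring
  · have h4 := (unit_mul_mem_iff_mem J h3).1 (mul_comm e _ ▸ h2)
    refine Or.inl fun w hw => ru w ?_
    convert J.add_mem (hab (mul_mem_mul hw ht)) (J.mul_mem_right w
      (J.add_mem (J.mul_mem_left (s + t) h4) he)) using 1
    ring

/-- Hartshorne's connectedness theorem. -/
theorem Dp.conn (h : Dp (n + 2) J) {p : Ideal R} (hp : p ∈ J.minimalPrimes) :
    (∀ q ∈ J.minimalPrimes, q = p) ∨ ∃ q ∈ J.minimalPrimes, q ≠ p ∧ Ch (p ⊔ q) (n + 1) := by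
  classical
  by_contra hc
  push Not at hc
  obtain ⟨⟨q₀, h0, h0'⟩, hc⟩ := hc
  let s := (J.finite_minimalPrimes_of_isNoetherianRing R).toFinset.erase p
  have ms : ∀ q, q ∈ s ↔ q ≠ p ∧ q ∈ J.minimalPrimes := fun q => by simp [s]
  have h1 : p * s.inf id ≤ J.radical := by
    rw [← sInf_minimalPrimes]
    refine le_sInf fun q hq => ?_
    by_cases e : q = p
    · exact e ▸ mul_le_left
    · exact mul_le_right.trans (Finset.inf_le ((ms q).2 ⟨e, hq⟩))
  obtain ⟨m, hm⟩ := exists_pow_le_of_le_radical_of_fg h1 (IsNoetherian.noetherian _)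
  have h2 : p ^ (m + 1) * s.inf id ^ (m + 1) ≤ J := by
    rw [← mul_pow]
    exact (pow_le_pow_right m.le_succ).trans hm
  have up : ∀ {r : Ideal R}, r.IsPrime → s.inf id ^ (m + 1) ≤ r → ∃ q ∈ s, q ≤ r :=
    fun hr h => hr.inf_le'.1 (hr.le_of_pow_le h)
  rcases h.split ((pow_le_self m.succ_ne_zero).trans (le_maximalIdeal hp.1.1.ne_top))
    ((pow_le_self m.succ_ne_zero).trans ((Finset.inf_le ((ms q₀).2 ⟨h0', h0⟩)).trans
      (le_maximalIdeal h0.1.1.ne_top))) h2 (fun ⟨r, hr, h3⟩ => by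
        obtain ⟨q, hq, h4⟩ := up r.2 (le_sup_right.trans hr)
        exact hc q ((ms q).1 hq).2 ((ms q).1 hq).1
          ⟨r, sup_le (r.2.le_of_pow_le (le_sup_left.trans hr)) h4, h3⟩) with h3 | h3
  · have h4 := h0.1.1.le_of_pow_le (h3.trans h0.1.2)
    exact h0' (le_antisymm (h0.2 hp.1 h4) h4)
  · obtain ⟨q, hq, h4⟩ := up hp.1.1 (h3.trans hp.1.2)
    exact ((ms q).1 hq).1 (le_antisymm h4 (hp.2 ((ms q).1 hq).2.1 h4))

end Pool.Agent.Lib.MP_41050a_ag.QM
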