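import Pool.Agent.Lib.MP_41050a_ag.QM.B0
import Pool.Agent.Lib.MP_41050a_ag.DJ.F

/-! Complete intersections in affine space. -/

namespace Pool.Agent.Lib.MP_41050a_ag.QM

open MvPolynomial NK

set_option linter.unusedSectionVars false

variable {K : Type} [Field K] {σ ρ : Type} [Fintype σ] [Fintype ρ] {h : ρ → MvPolynomial σ K}
  {n : ℕ} {p q : Ideal (MvPolynomial σ K)}

/-- The dimension of a prime is attained by the coordinates of a generic point. -/
theorem td_of (hp : p.IsPrime) (hn : n ≤ HZ.dm p) {Λ : Type} [Field Λ] [Algebra K Λ] {a : σ → Λ}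
    (ha : ∀ g, aeval a g = 0 ↔ g ∈ p) : Td K a n := by
  obtain ⟨s, t, ht, -, h2⟩ := DJ.dim_trdeg K (MvPolynomial σ K ⧸ p)
  let ψ := Ideal.Quotient.liftₐ p (aeval a) fun g hg => (ha g).2 hg
  have hψ : Function.Injective ψ := (injective_iff_map_eq_zero _).2 fun y hy => by
    obtain ⟨g, rfl⟩ := Ideal.Quotient.mk_surjective y
    exact Ideal.Quotient.eq_zero_iff_mem.2 ((ha g).1 hy)
  refine ⟨_, (ht.map' hψ).comp _ (Fin.castLE_injective (hn.trans_eq h2)), fun l => ?_⟩
  obtain ⟨g, hg⟩ := Ideal.Quotient.mk_surjective (t (Fin.castLE (hn.trans_eq h2) l))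
  rw [Function.comp_apply, Function.comp_apply, ← hg]
  exact IntermediateField.algebra_adjoin_le_adjoin K _
    (Algebra.adjoin_range_eq_range_aeval K a ▸ ⟨g, rfl⟩)

/-- A chain of primes of the local ring gives a lower bound for the dimension. -/
theorem ch_dm {a : σ → K} {c : Ideal (Localization.AtPrime (pt a))} (hc : Ch c n) :
    ∃ r : Ideal (MvPolynomial σ K), r.IsPrime ∧ c.under _ ≤ r ∧ n ≤ HZ.dm r := by
  obtain ⟨r, h1, h2⟩ := hc
  refine ⟨r.asIdeal.under _, inferInstance, Ideal.comap_mono h1, ?_⟩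
  have := h2.trans (Order.coheight_le_coheight_apply_of_strictMono
    (fun r : PrimeSpectrum (Localization.AtPrime (pt a)) =>
      OrderDual.toDual (HZ.dm (r.asIdeal.under (MvPolynomial σ K)))) (fun x y hxy =>
      HZ.dm_lt inferInstance inferInstance (lt_of_le_of_ne (Ideal.comap_mono hxy.le) fun e =>
        hxy.ne (PrimeSpectrum.localization_comap_injective _ (pt a).primeCompl
          (PrimeSpectrum.ext e)))) r)
  rwa [Order.coheight_toDual, Order.height_nat, Nat.cast_le] at this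

/-- Krull: every component has at least the expected dimension (`HZ.dm_krull`, `DJ.dim_trdeg`, see
the end of `DJ/F`). -/
theorem dim_ge (hc : Fintype.card σ = n + Fintype.card ρ)
    (hp : p ∈ (Ideal.span (Set.range h)).minimalPrimes) {Λ : Type} [Field Λ] [Algebra K Λ]
    {a : σ → Λ} (ha : ∀ g, aeval a g = 0 ↔ g ∈ p) : Td K a n := by
  have h3 := HZ.dm_krull (P := ⊥) (Q := p) Ideal.isPrime_bot (h ∘ (Fintype.equivFin ρ).symm)
    (by rwa [bot_sup_eq, EquivLike.range_comp])
  rw [HZ.dm_bot] at h3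
  exact td_of hp.1.1 (by omega) ha

/-- Hartshorne. Localise at the origin, `Dp (card σ) ⊥` by the variables (the ideals spanned by
sets of variables are prime), `Dp.list` for the `h j`, `Dp.conn`; a chain of primes above `r` of
length `m` gives `m ≤ ringKrullDim (_ ⧸ r)`, then `DJ.dim_trdeg` and `exists_generic`. -/
theorem conn_poly (hc : Fintype.card σ = n + 2 + Fintype.card ρ)
    (h0 : ∀ q ∈ (Ideal.span (Set.range h)).minimalPrimes, ∀ g ∈ q, constantCoeff g = 0)
    (hd : ∀ (Λ : Type) [Field Λ] [Algebra K Λ] [IsAlgClosed Λ] (a : σ → Λ),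
      (∀ j, aeval a (h j) = 0) → ¬Td K a (n + 3))
    (hp : p ∈ (Ideal.span (Set.range h)).minimalPrimes) :
    (∀ q ∈ (Ideal.span (Set.range h)).minimalPrimes, q = p) ∨
    ∃ q ∈ (Ideal.span (Set.range h)).minimalPrimes, q ≠ p ∧ ∃ r : Ideal (MvPolynomial σ K),
      r.IsPrime ∧ p ≤ r ∧ q ≤ r ∧ ∀ (Λ : Type) [Field Λ] [Algebra K Λ] (a : σ → Λ),
        (∀ g, aeval a g = 0 ↔ g ∈ r) → Td K a (n + 1) := by
  let R := Localization.AtPrime (pt (0 : σ → K))
  let ι := algebraMap (MvPolynomial σ K) R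
  have h1 : ∀ q ∈ (Ideal.span (Set.range h)).minimalPrimes, (q.map ι).under _ = q := fun q hq =>
    IsLocalization.under_map_of_isPrime_disjoint (pt (0 : σ → K)).primeCompl R hq.1.1
      (Set.disjoint_left.2 fun g hg hg' => hg (by simp [mem_pt, h0 q hq g hg']))
  have h2 : ∀ q : Ideal R, q ∈ ((Ideal.span (Set.range h)).map ι).minimalPrimes ↔
      q.under _ ∈ (Ideal.span (Set.range h)).minimalPrimes := fun q => by
    rw [IsLocalization.minimalPrimes_map (pt (0 : σ → K)).primeCompl R]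
    rfl
  have h3 : ⊥ ⊔ Ideal.ofList (Finset.univ.toList.map fun j => ι (h j)) =
      (Ideal.span (Set.range h)).map ι := by
    rw [bot_sup_eq, Ideal.map_span, ← Set.range_comp]
    exact congrArg Ideal.span (Set.ext fun y => by simp)
  have h4 : Dp (n + 2) ((Ideal.span (Set.range h)).map ι) := by
    rw [← h3]
    refine Dp.list (by simpa [hc] using dp_point (0 : σ → K)) (fun y hy => ?_) fun h5 => ?_
    · obtain ⟨j, -, rfl⟩ := List.mem_map.1 hy
      exact (IsLocalization.AtPrime.to_map_mem_maximal_iff R (pt (0 : σ → K)) _).2 (by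
        simp [mem_pt, h0 p hp _ (hp.1.2 (Ideal.subset_span ⟨j, rfl⟩))])
    · rw [h3] at h5
      obtain ⟨r, h6, h7, h8⟩ := ch_dm h5
      obtain ⟨Λ, _, _, _, a, ha⟩ := exists_generic h6
      exact hd Λ a (fun j => (ha _).2 (h7 (Ideal.mem_map_of_mem ι (Ideal.subset_span ⟨j, rfl⟩))))
        (td_of h6 h8 ha)
  refine (h4.conn ((h2 _).2 ((h1 p hp).symm ▸ hp))).imp (fun h5 q hq => ?_) ?_
  · rw [← h1 q hq, h5 (q.map ι) ((h2 _).2 ((h1 q hq).symm ▸ hq)), h1 p hp]
  · rintro ⟨q, hq, h5, h6⟩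
    obtain ⟨r, h7, h8, h9⟩ := ch_dm h6
    refine ⟨_, (h2 q).1 hq, fun e => h5 ?_, r, h7,
      (h1 p hp).ge.trans ((Ideal.comap_mono le_sup_left).trans h8),
      (Ideal.comap_mono le_sup_right).trans h8, fun Λ _ _ a ha => td_of h7 h9 ha⟩
    rw [← e, IsLocalization.map_under (pt (0 : σ → K)).primeCompl R]

end Pool.Agent.Lib.MP_41050a_ag.QM
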