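import Pool.Agent.Lib.MP_41050a_ag.QM.Def

/-! The local ring of affine space at a rational point. -/

namespace Pool.Agent.Lib.MP_41050a_ag.QM

open MvPolynomial

set_option linter.unusedSectionVars false

variable {K : Type} [Field K] {σ : Type} [Fintype σ]

/-- The ideal of the point `a`. -/
noncomputable def pt (a : σ → K) : Ideal (MvPolynomial σ K) :=
  RingHom.ker (aeval a : MvPolynomial σ K →ₐ[K] K)

theorem mem_pt {a : σ → K} {g : MvPolynomial σ K} : g ∈ pt a ↔ aeval a g = 0 := Iff.rfl

instance pt_prime (a : σ → K) : (pt a).IsPrime := RingHom.ker_isPrime _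

/-- The ideal spanned by the `X s - C (a s)`, `s ∈ S`, is the kernel of a substitution, so it is
prime, and so is its image in the localisation. -/
theorem dp_point (a : σ → K) :
    Dp (Fintype.card σ) (⊥ : Ideal (Localization.AtPrime (pt a))) := by
  classical
  let y : σ → MvPolynomial σ K := fun s => X s - C (a s)
  have h1 : ∀ S : Finset σ, Ideal.span (y '' S) = RingHom.ker (aeval fun s =>
      if s ∈ S then C (a s) else X s : MvPolynomial σ K →ₐ[K] MvPolynomial σ K) := fun S => by
    refine le_antisymm (Ideal.span_le.2 ?_) fun g hg => ?_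
    · rintro _ ⟨s, hs, rfl⟩
      simp [y, Finset.mem_coe.1 hs]
    · rw [← sub_zero g, ← RingHom.mem_ker.1 hg]
      clear hg
      induction g using MvPolynomial.induction_on with
      | C c => simp
      | add p q hp hq =>
        rw [map_add, add_sub_add_comm]
        exact add_mem hp hq
      | mul_X p s hp =>
        rw [map_mul, aeval_X, ← sub_add_sub_cancel _ (p * if s ∈ S then C (a s) else X s), ← mul_sub,
          ← sub_mul]
        refine add_mem (Ideal.mul_mem_left _ _ ?_) (Ideal.mul_mem_right _ _ hp)
        split_ifs with h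
        · exact Ideal.subset_span ⟨s, h, rfl⟩
        · simp
  have h2 : ∀ S : Finset σ, Ideal.span (y '' S) ≤ pt a := fun S => Ideal.span_le.2 (by
    rintro _ ⟨s, -, rfl⟩
    simp [y, mem_pt])
  have h3 : ∀ n (S : Finset σ), Sᶜ.card = n → Dp n ((Ideal.span (y '' S)).map
      (algebraMap _ (Localization.AtPrime (pt a)))) := fun n => by
    induction n with
    | zero =>
      exact fun S _ => (Ideal.map_mono (h2 S)).trans Localization.AtPrime.map_eq_maximalIdeal.le
    | succ n ih =>
      intro S hS
      obtain ⟨s, hs⟩ := Finset.card_pos.1 (n.succ_pos.trans_eq hS.symm)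
      have hp : (Ideal.span (y '' S)).IsPrime := h1 S ▸ RingHom.ker_isPrime _
      have hd : Disjoint ((pt a).primeCompl : Set (MvPolynomial σ K)) (Ideal.span (y '' S)) :=
        Set.disjoint_left.2 fun g hg hg' => hg (h2 S hg')
      refine ⟨algebraMap _ _ (y s), (IsLocalization.AtPrime.to_map_mem_maximal_iff _ (pt a) _).2
        (by simp [y, mem_pt]), fun b hb => ((IsLocalization.isPrime_of_isPrime_disjoint _ _ _ hp
          hd).mem_or_mem hb).resolve_left fun h => ?_, ?_⟩
      · rw [← Ideal.mem_comap, ← Ideal.under_def,
          IsLocalization.under_map_of_isPrime_disjoint _ _ hp hd, h1, RingHom.mem_ker] at h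
        simpa [y, Finset.mem_compl.1 hs] using congrArg (eval fun _ => a s + 1) h
      · have := ih (insert s S) (by
          rw [Finset.compl_insert, Finset.card_erase_of_mem hs, hS, Nat.add_sub_cancel])
        rwa [Finset.coe_insert, Set.image_insert_eq, Ideal.span_insert, Ideal.map_sup,
          Ideal.map_span, Set.image_singleton, sup_comm] at this
  simpa using h3 _ ∅ (by simp)

end Pool.Agent.Lib.MP_41050a_ag.QM
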