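import Pool.Agent.Lib.MP_41050a_ag.QM.B0

/-! A smooth point lies on one component. -/

namespace Pool.Agent.Lib.MP_41050a_ag.QM

open MvPolynomial NK

set_option linter.unusedSectionVars false

variable {K : Type} [Field K] {σ ρ : Type} [Fintype σ] [Fintype ρ] {h : ρ → MvPolynomial σ K}
  {p q : Ideal (MvPolynomial σ K)}

/-- The linear form with coefficients `v` that vanishes at `a`. -/
noncomputable def lfm (a : σ → K) : (σ → K) →ₗ[K] MvPolynomial σ K :=
  Fintype.linearCombination K fun s => X s - C (a s)

theorem lfm_mem (a v : σ → K) : lfm a v ∈ pt a := by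
  simp [lfm, Fintype.linearCombination_apply, mem_pt]

/-- Taylor expansion to the first order. -/
theorem tay (a : σ → K) (g : MvPolynomial σ K) :
    g - C (aeval a g) - lfm a (fun s => aeval a (pderiv s g)) ∈ pt a * pt a := by
  classical
  induction g using MvPolynomial.induction_on with
  | C c => simp [lfm, Fintype.linearCombination_apply]
  | add f g hf hg =>
    have e : (fun s => aeval a (pderiv s (f + g))) =
        (fun s => aeval a (pderiv s f)) + fun s => aeval a (pderiv s g) := by
      funext s
      simp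
    convert add_mem hf hg using 1
    rw [e, map_add, map_add, map_add]
    ring
  | mul_X f t hf =>
    have e : (fun s => aeval a (pderiv s (f * X t))) =
        a t • (fun s => aeval a (pderiv s f)) + aeval a f • Pi.single t 1 := by
      funext s
      by_cases e : s = t
      · subst e
        simp [mul_comm, add_comm]
      · simp [e, Ne.symm e, mul_comm]
    have e2 : lfm a (Pi.single t 1) = X t - C (a t) := by
      simp [lfm]
    convert add_mem (Ideal.mul_mem_mul (show f - C (aeval a f) ∈ pt a by simp [mem_pt])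
      (show X t - C (a t) ∈ pt a by simp [mem_pt])) (Ideal.mul_mem_left _ (C (a t)) hf) using 1
    rw [e, map_add, map_smul, map_smul, e2, smul_eq_C_mul, smul_eq_C_mul, map_mul, aeval_X, C_mul]
    ring

/-- At a smooth point the equations generate a prime ideal of the local ring. -/
theorem prime_smooth {a : σ → K}
    (hJ : LinearIndependent K fun (j : ρ) (s : σ) => aeval a (pderiv s (h j)))
    (h0 : ∀ j, h j ∈ pt a) : ((Ideal.span (Set.range h)).map
      (algebraMap _ (Localization.AtPrime (pt a)))).IsPrime := by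
  classical
  obtain ⟨W, hW⟩ := (Submodule.span K (Set.range fun (j : ρ) (s : σ) =>
    aeval a (pderiv s (h j)))).exists_isCompl
  have hd := Submodule.finrank_add_eq_of_isCompl hW
  rw [finrank_span_eq_card hJ, Module.finrank_fintype_fun_eq_card] at hd
  let b := Module.finBasis K W
  let y : Fin (Module.finrank K W) → MvPolynomial σ K := fun i => lfm a (b i)
  let T := Ideal.span (Set.range h) ⊔ Ideal.span (Set.range y) ⊔ pt a * pt a
  have h1 : ∀ v, lfm a v ∈ T := fun v => by
    have : ⊤ ≤ (T.restrictScalars K).comap (lfm a) := by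
      rw [← hW.sup_eq_top]
      refine sup_le (Submodule.span_le.2 ?_) fun w hw => ?_
      · rintro _ ⟨j, rfl⟩
        have h2 := sub_mem (Ideal.mem_sup_left (Ideal.mem_sup_left
          (Ideal.subset_span ⟨j, rfl⟩)) : h j ∈ T) (Ideal.mem_sup_right (tay a (h j)))
        rwa [mem_pt.1 (h0 j), C_0, sub_zero, sub_sub_cancel] at h2
      · have h2 := congrArg W.subtype (b.sum_repr ⟨w, hw⟩)
        rw [map_sum] at h2
        refine (show w = _ from h2.symm) ▸ Submodule.sum_mem _ fun i _ => ?_
        rw [map_smul]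
        exact Submodule.smul_mem _ _ (show y i ∈ T from
          Ideal.mem_sup_left (Ideal.mem_sup_right (Ideal.subset_span ⟨i, rfl⟩)))
    exact this trivial
  have h2 : pt a ≤ T := fun g hg => by
    have h3 := add_mem (Ideal.mem_sup_right (tay a g) : _ ∈ T)
      (h1 fun s => aeval a (pderiv s g))
    rwa [mem_pt.1 hg, C_0, sub_zero, sub_add_cancel] at h3
  let φ := algebraMap (MvPolynomial σ K) (Localization.AtPrime (pt a))
  have hm : (pt a).map φ = IsLocalRing.maximalIdeal _ := Localization.AtPrime.map_eq_maximalIdeal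
  have ol : ∀ {τ : Type} [Fintype τ] (u : τ → MvPolynomial σ K),
      Ideal.ofList (Finset.univ.toList.map fun j => φ (u j)) =
        (Ideal.span (Set.range u)).map φ := fun u => by
    rw [Ideal.map_span, ← Set.range_comp]
    exact congrArg Ideal.span (Set.ext fun z => by simp)
  have om : ∀ {τ : Type} [Fintype τ] (u : τ → MvPolynomial σ K), (∀ j, u j ∈ pt a) →
      ∀ z ∈ Finset.univ.toList.map fun j => φ (u j), z ∈ IsLocalRing.maximalIdeal _ :=
    fun u hu z hz => by
      obtain ⟨j, -, rfl⟩ := List.mem_map.1 hz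
      exact hm ▸ Ideal.mem_map_of_mem φ (hu j)
  have hy : ∀ i, y i ∈ pt a := fun i => lfm_mem a _
  have h3 : ⊥ ⊔ Ideal.ofList (Finset.univ.toList.map fun j => φ (h j)) ⊔
      Ideal.ofList (Finset.univ.toList.map fun j => φ (y j)) = IsLocalRing.maximalIdeal _ := by
    refine le_antisymm (sup_le (sup_le bot_le (Ideal.span_le.2 (om h h0)))
      (Ideal.span_le.2 (om y hy))) (nak ?_)
    rw [ol, ol, bot_sup_eq, ← Ideal.map_sup, ← hm, smul_eq_mul, ← Ideal.map_mul, ← Ideal.map_sup]
    exact Ideal.map_mono h2
  rw [← ol, ← bot_sup_eq (Ideal.ofList _)]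
  refine Dp.prime (Dp.list ?_ (om h h0) fun h4 => not_ch_max
    (h3 ▸ Ch.list (h4.mono le_rfl (by omega)) (om y hy))) h3
  convert dp_point a using 1
  simp [← hd, add_comm]

/-- In `R`, the localisation of `MvPolynomial σ Λ` at the point `a`: `Dp (card σ) ⊥` by the
`X s - C (a s)`; complete the rows of the Jacobian to a basis by linear forms `y`, so that
`(h, y)` is the maximal ideal (Taylor modulo the square, `nak`); `Dp.list` (with `Ch.list`,
`not_ch_max`) and `Dp.prime` show that `(h) R` is prime. Going down for the flat map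
`MvPolynomial σ K → MvPolynomial σ Λ` shows that its preimage lies in `p` and in `q`. -/
theorem uniq_smooth {Λ : Type} [Field Λ] [Algebra K Λ] {a : σ → Λ}
    (hJ : LinearIndependent Λ fun (j : ρ) (s : σ) => aeval a (pderiv s (h j)))
    (hp : p ∈ (Ideal.span (Set.range h)).minimalPrimes)
    (hq : q ∈ (Ideal.span (Set.range h)).minimalPrimes) (hpa : ∀ g ∈ p, aeval a g = 0)
    (hqa : ∀ g ∈ q, aeval a g = 0) : p = q := by
  let _ : Algebra (MvPolynomial σ K) (MvPolynomial σ Λ) := algebraMvPolynomial
  have : Module.Flat (MvPolynomial σ K) (MvPolynomial σ Λ) := .of_linearEquiv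
    (Algebra.IsPushout.equiv K (MvPolynomial σ K) Λ (MvPolynomial σ Λ)).symm.toLinearEquiv
  let ψ := algebraMap (MvPolynomial σ K) (MvPolynomial σ Λ)
  let φ := algebraMap (MvPolynomial σ Λ) (Localization.AtPrime (pt a))
  have e : ∀ g, aeval a (ψ g) = aeval a g := fun g => aeval_map_algebraMap Λ a g
  have h1 := prime_smooth (a := a) (h := ψ ∘ h) (by
    convert hJ using 3 with j s
    exact (congrArg _ pderiv_map).trans (e _)) fun j =>
      (e _).trans (hpa _ (hp.1.2 (Ideal.subset_span ⟨j, rfl⟩)))
  have key : ∀ r ∈ (Ideal.span (Set.range h)).minimalPrimes, (∀ g ∈ r, aeval a g = 0) →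
      r = (((Ideal.span (Set.range (ψ ∘ h))).map φ).comap φ).comap ψ := fun r hr hra => by
    have := hr.1.1
    obtain ⟨P, h2, h3, h4⟩ := Ideal.exists_ideal_le_liesOver_of_le (p := r)
      (q := (pt a).under (MvPolynomial σ K)) (pt a) fun g hg => (e g).trans (hra g hg)
    have h5 : (((Ideal.span (Set.range (ψ ∘ h))).map φ).comap φ).comap ψ ≤ r := by
      rw [P.over_def r, ← IsLocalization.under_map_of_isPrime_disjoint (pt a).primeCompl
        (Localization.AtPrime (pt a)) h3 (Set.disjoint_left.2 fun g hg hg' => hg (h2 hg'))]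
      refine Ideal.comap_mono (Ideal.comap_mono (Ideal.map_mono (Ideal.span_le.2 ?_)))
      rintro _ ⟨j, rfl⟩
      exact (P.mem_of_liesOver r _).1 (hr.1.2 (Ideal.subset_span ⟨j, rfl⟩))
    refine le_antisymm (hr.2 ⟨inferInstance, Ideal.span_le.2 ?_⟩ h5) h5
    rintro _ ⟨j, rfl⟩
    exact Ideal.mem_map_of_mem φ (Ideal.subset_span ⟨j, rfl⟩)
  exact (key p hp hpa).trans (key q hq hqa).symm

end Pool.Agent.Lib.MP_41050a_ag.QM
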