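import Pool.Agent.Lib.MP_41050a_ag.QM.Def

/-! The dimension of the strata. -/

namespace Pool.Agent.Lib.MP_41050a_ag.QM

open Polynomial NK Module

set_option linter.unusedSectionVars false

variable {k : Type} [Field k] [IsAlgClosed k] [CharZero k] {N n c e ι : ℕ} {I : Ideal (Pk k N)}
  {f : Fin c → Pk k N} {d : Fin c → ℕ} {K Λ : Type} [Field K] [IsAlgClosed K] [Algebra k K]
  [Field Λ] [IsAlgClosed Λ] [Algebra k Λ] [Algebra K Λ] [IsScalarTower k K Λ] {x : V K N}
  {a : Iy N e → Λ}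

theorem cod_top (hV : SmoothVar I) (hn : Dim I n k) {T : V Λ[X] N} (hT : IsMap I e T)
    (hf : Free I e T) {b : ℤ} (h : AntiK I n e T b) {U : Submodule Λ (Dr k Λ)}
    (hU : ∀ D ∈ U, ∀ i, D ((T i).coeff e) = 0) : Cod U (Ann k (cfs T)) b := by
  obtain ⟨hfin, hr⟩ := rank_secAt hV hn hT hf h none
  obtain ⟨i, hi⟩ := hT.bpf none
  have hi' : (T i).coeff e ≠ 0 := hi
  refine cod_of_map (dF T) ((Submodule.span_singleton_le_iff_mem _ _).2 (secb1_self hV hT none))
    (fun D hD => (secb1_st hT (.inl rfl) D).2 ⟨0, fun j => (hU D hD j).trans (zero_mul _).symm⟩)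
    (fun D hD h1 => ?_) ?_
  · obtain ⟨c, hc⟩ := Submodule.mem_span_singleton.1 h1
    have h2 : (c • T i).coeff e = D ((T i).coeff e) := congrArg (fun G => (G i).coeff e) hc
    rw [coeff_smul, hU D hD, smul_eq_mul, mul_eq_zero, or_iff_left hi'] at h2
    rw [h2, zero_smul] at hc
    exact mem_ann_cfs.2 fun j => (congrFun hc j).symm
  · rw [finrank_span_singleton fun h0 => hi' (by simp [h0])]
    omega

theorem Td.le {σ : Type} {a : σ → Λ} {m : ℕ} (hm : Td K a m) {b : ℤ}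
    (h : Cod (Ann k (Set.range (algebraMap K Λ))) (Ann k (Set.range a)) b) : m ≤ b := by
  have : CharZero K := charZero_of_injective_algebraMap (algebraMap k K).injective
  by_contra hb
  obtain ⟨r, ψ, h1, h2⟩ := h
  let ρ : Dr K Λ →ₗ[Λ] Dr k Λ := ⟨⟨fun D => D.restrictScalars k, fun _ _ => rfl⟩, fun _ _ => rfl⟩
  exact Ind.not_cod hm subset_rfl ⟨r, ψ ∘ₗ ρ, by omega, fun D _ e =>
    h2 (ρ D) (by rintro _ ⟨b, rfl⟩; exact D.map_algebraMap b) e⟩

theorem count (h : Dat I n f d ι) (h2 : 2 ≤ ι) (h0 : x ≠ 0) (hg : Gn I (algebraMap K Λ ∘ x))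
    (ha : On I (pol (full (algebraMap K Λ ∘ x) a))) {m : ℕ} (hm : Td K a m) :
    m ≤ ι * e ∧ (IsMap I e (pol (full (algebraMap K Λ ∘ x) a)) ∨ (m + ι ≤ ι * e + 1 ∧
      (Good I e (pol (full (algebraMap K Λ ∘ x) a)) ∨ m + 2 ≤ ι * e))) := by
  obtain ⟨i, hi⟩ := Function.ne_iff.1 h0
  have h1 : (pol (full (algebraMap K Λ ∘ x) a) i).coeff e ≠ 0 := by
    rw [full_top]
    exact (_root_.map_ne_zero _).2 hi
  obtain ⟨g, T, e', -, -, hg1, hF, hb, ht, -⟩ := exists_prim (pol_deg _) ⟨i, h1⟩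
  have e1 : pol (full (algebraMap K Λ ∘ x) a) = g • T := funext hF
  have hT : IsMap I e' T := ⟨hb.deg, on_of_smul h.var.toCone hg1.ne_zero (e1 ▸ ha), hb.bpf⟩
  have h3 : ev e' none T = algebraMap K Λ ∘ x := funext fun j => (ht j).trans (full_top _ _ j)
  have h4 : Gn I (ev e' none T) := h3 ▸ hg
  obtain ⟨δ, G, hG⟩ := exists_frame h.dim hT
  have h5 : AntiK I n e' T (e' * ι) := h.deg Λ e' T _ hT ⟨δ, G, hG, rfl⟩ ▸ ⟨δ, G, hG, rfl⟩
  have he : e = g.natDegree + e' := by
    have h6 := natDegree_eq_of_le_of_coeff_ne_zero (hb.deg i) ((ht i).trans_ne h1)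
    rw [← natDegree_eq_of_le_of_coeff_ne_zero (pol_deg _ i) h1, hF, hg1.natDegree_mul', h6]
    exact fun h7 => h1 (by rw [hF, h7, mul_zero, coeff_zero])
  have key : ∀ b : ℤ, Cod (Ann k (cfs T)) (Ann k (Set.range fun j : Fin g.natDegree => g.coeff j))
      b → m ≤ e' * ι + b := fun b hb => by
    refine hm.le (k := k) (((cod_top (U := Ann k (Set.range (algebraMap K Λ))) h.var h.dim hT
      (h4.free h.var h.dim hT (.inl rfl)) h5
      fun D hD j => hD _ ⟨x j, (congrFun h3 j).symm⟩).step hb inf_le_right).weak le_rfl ?_)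
    rintro D ⟨-, h6, h7⟩ _ ⟨⟨j, l⟩, rfl⟩
    have h8 : dP D g = 0 := by
      ext r
      rw [dP_coeff, coeff_zero]
      rcases lt_trichotomy r g.natDegree with hr | rfl | hr
      · exact h7 _ ⟨⟨r, hr⟩, rfl⟩
      · rw [hg1.coeff_natDegree, D.map_one_eq_zero]
      · rw [coeff_eq_zero_of_natDegree_lt hr, map_zero]
    rw [← full_cast (algebraMap K Λ ∘ x) a, ← pol_coeff (full _ a), ← dP_coeff, hF,
      Derivation.leibniz, h8, mem_ann_cfs.1 h6, smul_zero, smul_zero, add_zero, coeff_zero]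
  have h6 := key _ ((val4_cod _).weak le_top inf_le_right)
  rw [Fintype.card_fin] at h6
  have h7 : m ≤ ι * e' + g.natDegree := by
    rw [mul_comm]
    exact_mod_cast h6
  rcases Nat.lt_trichotomy g.natDegree 1 with h8 | h8 | h8
  · obtain rfl : g = 1 := hg1.natDegree_eq_zero.1 (by omega)
    obtain rfl : e = e' := by simpa using he
    exact ⟨by simpa using h7, .inl (by rwa [e1, one_smul])⟩
  · have h9 : g = X - C (-g.coeff 0) := by
      rw [C_neg, sub_neg_eq_add]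
      exact hg1.eq_X_add_C h8
    rw [h8] at he h7
    have h10 : ι * e = ι * e' + ι := by rw [he]; ring
    refine ⟨by omega, .inr ⟨by omega, ?_⟩⟩
    by_cases hA : Ann k (cfs T) ≤ Ann k {-g.coeff 0}
    · have h11 := key 0 (cod_zero fun D hD => by
        rintro _ ⟨j, rfl⟩
        have h12 := hA hD _ rfl
        rw [map_neg, neg_eq_zero] at h12
        have h13 : (j : ℕ) = 0 := by omega
        simp only [h13, h12])
      rw [add_zero, mul_comm] at h11
      have h12 : m ≤ ι * e' := by exact_mod_cast h11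
      exact .inr (by omega)
    · exact .inl ⟨_, T, e', by omega, fun j => h9 ▸ hF j, hT, h4, Gn.root h.var h.dim hT h4 hA⟩
  · obtain ⟨u, rfl⟩ := Nat.exists_eq_add_of_le h2
    generalize g.natDegree = μ at he h7 h8
    obtain ⟨v, rfl⟩ := Nat.exists_eq_add_of_lt h8
    subst he
    exact ⟨by nlinarith [Nat.zero_le (u * v)], .inr ⟨by nlinarith [Nat.zero_le (u * v)],
      .inr (by nlinarith [Nat.zero_le (u * v)])⟩⟩

end Pool.Agent.Lib.MP_41050a_ag.QM
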