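import Pool.Agent.Lib.MP_41050a_ag.QM.Def

/-! A simple base point at a generic point gives a free line. -/

namespace Pool.Agent.Lib.MP_41050a_ag.QM

open Polynomial NK

set_option linter.unusedSectionVars false

variable {k : Type} [Field k] [IsAlgClosed k] [CharZero k] {N n e : ℕ} {I : Ideal (Pk k N)}
  {E : Type} [Field E] [Algebra k E] [IsAlgClosed E] {P : Ideal (MvPolynomial (Ix N e) k)}
  {Λ : Type} [Field Λ] [Algebra k Λ] [IsAlgClosed Λ]
  {O : Type} [CommRing O] [IsDomain O] [ValuationRing O] [Algebra k O] [Algebra O E]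
  [IsFractionRing O E] [IsScalarTower k O E] {red : O →ₐ[k] Λ}

theorem bub_deg {R : Type} [CommRing R] {f : R[X]} (h : f.natDegree ≤ e) (a : R) :
    (f.comp (X + C a)).natDegree ≤ e :=
  (natDegree_taylor f a).le.trans h

theorem bub_on {R : Type} [CommRing R] [Algebra k R] {F : V R[X] N} (h : On I F) (q : R[X]) :
    On I fun i => (F i).comp q := by
  have e : (aeval (R := R) q).restrictScalars k ∘ F = fun i => (F i).comp q :=
    funext fun i => (comp_eq_aeval ..).symm
  exact e ▸ h.map _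

/-- The component is stable under translations of the line. -/
theorem bub_shift (hP : P ∈ (eqs I e).minimalPrimes) {γ : Ix N e → O}
    (hγ : ∀ g, MvPolynomial.aeval (algebraMap O E ∘ γ) g = 0 ↔ g ∈ P) (β : O) :
    ∃ c : Ix N e → O, (pol c = fun i => (pol γ i).comp (X + C β)) ∧
      ∀ g ∈ P, MvPolynomial.aeval c g = 0 := by
  have h1 : On I (pol γ) := eqs_iff.1 fun g hg => IsFractionRing.injective O E
    ((MvPolynomial.comp_aeval_apply γ (IsScalarTower.toAlgHom k O E) g).trans
      (((hγ g).2 (hP.1.2 hg)).trans (map_zero _).symm))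
  have h2 := bub_on (h1.map (mapAlgHom ((CAlgHom : O →ₐ[O] O[X]).restrictScalars k)))
    (X + C X)
  obtain ⟨η, hη⟩ := exists_pol (e := e) (F := fun i => ((pol γ i).map C).comp (X + C (X : O[X])))
    fun i => bub_deg (natDegree_map_le.trans (pol_deg γ i)) _
  have h3 : ∀ a : O, pol ((evalRingHom a) ∘ η) = fun i => (pol γ i).comp (X + C a) := fun a =>
    funext fun i => by
      rw [← pol_map, hη, map_comp, Polynomial.map_map,
        show (evalRingHom a).comp C = RingHom.id O from RingHom.ext fun x => by simp]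
      simp
  have h4 : (evalRingHom 0) ∘ η = γ := pol_inj ((h3 0).trans (funext fun i => by simp))
  refine ⟨_, h3 β, fun g hg => ?_⟩
  have h5 := (gen_min hP hγ ((IsScalarTower.toAlgHom k O E).comp
    ((aeval (0 : O)).restrictScalars k)) (hη ▸ h2)
    (fun x => congrArg (algebraMap O E) (congrFun h4 x)) g).2 hg
  have h6 := MvPolynomial.comp_aeval_apply η ((aeval β : O[X] →ₐ[O] O).restrictScalars k) g
  rw [h5, map_zero] at h6
  exact h6.symm

theorem bub_map {T : V Λ[X] N} (h : IsMap I e T) (b : Λ) :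
    IsMap I e fun i => (T i).comp (X + C b) := by
  refine ⟨fun i => bub_deg (h.deg i) b, bub_on h.on _, fun p => ?_⟩
  rcases p with _ | u
  · obtain ⟨i, hi⟩ := h.bpf none
    have h1 : (T i).natDegree = e := (h.deg i).antisymm (le_natDegree_of_ne_zero hi)
    refine ⟨i, ?_⟩
    have h2 := coeff_taylor_natDegree b (T i)
    rw [leadingCoeff, h1] at h2
    exact h2.trans_ne hi
  · exact (h.bpf (some (u + b))).imp fun i hi => by simpa [val, eval_comp] using hi

theorem bub_curve (hn : Dim I n k) {T : V Λ[X] N} (h : IsMap I e T) (he : 0 < e) :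
    ∃ d, Curve I n e T d :=
  let ⟨δ, G, hG⟩ := exists_frame hn h
  ⟨_, he, h, δ, G, hG, rfl⟩

/-- `tree1_root` gives `β` over `b` with `F i₀ (β) = 0`; `P` is stable under `t ↦ t + β`
(`gen_min` over `E[X]` as in `scal_mem`); `Res.step` with `μ = 1` gives `σ`, `H`; the line
`rd red H` has leading vector `T b`, its constant vector is not zero and has coordinate `i₀` zero,
so it has no base point; `Gn.free`, `exists_frame`, `Two.breaks`. -/
theorem bubble (hV : SmoothVar I) (hn : Dim I n k) (hP : P ∈ (eqs I e).minimalPrimes)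
    (hr : Res red) {γ : Ix N e → O}
    (hγ : ∀ g, MvPolynomial.aeval (algebraMap O E ∘ γ) g = 0 ↔ g ∈ P)
    (hF : IsMap I e (pol (algebraMap O E ∘ γ))) (he : 2 ≤ e) (hg : Good I e (pol (red ∘ γ))) :
    BreaksN I e P := by
  obtain ⟨b, T, m, rfl, hT, mT, -, gb⟩ := hg
  have e1 : ∀ i, rd red (pol γ) i = (X - C b) * T i := fun i => (pol_map γ _ i).trans (hT i)
  have o1 : Ord (rd red (pol γ)) b 1 (ev m (some b) T) :=
    ⟨ev_ne mT _, T, fun i => by rw [pow_one, e1], fun _ => rfl⟩
  obtain ⟨β, i₀, rfl, y0, z0⟩ := tree1_root E hr o1 one_pos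
  obtain ⟨c, hc, hm⟩ := bub_shift hP hγ β
  have e2 : rd red (pol c) = fun i => (rd red (pol γ) i).comp (X + C (red β)) :=
    hc ▸ rd_shift _ β
  have e3 : ∀ i, (pol c i).coeff 0 = (pol γ i).eval β := fun i => by
    rw [hc, coeff_zero_eq_eval_zero, eval_comp, eval_add, eval_X, eval_C, zero_add]
  obtain ⟨-, a1, b1⟩ := ord_zero_iff.1 (e2 ▸ o1.shift)
  obtain ⟨σ, H, s0, r0, eH, dH, i₁, j, hj, nz⟩ := hr.step E (pol c) (fun _ => 1)
    (fun i j l => by simpa [rd] using a1 i j l)
    ((hF.bpf (some (algebraMap O E β))).imp fun i hi => ⟨0, one_pos, fun h => hi (by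
      rw [val, ← pol_map, eval_map, eval₂_hom, ← e3, h, map_zero])⟩)
  obtain rfl : j = 0 := by omega
  have h1 : (H i₀).coeff 0 = 0 := (mul_eq_zero.1
    ((tree1_zero (eH i₀)).symm.trans ((e3 i₀).trans z0))).resolve_left (pow_ne_zero _ s0)
  have h2 : On I H := by
    have h3 := bub_on (eqs_iff.1 fun g hg => hm g (hP.1.2 hg)) (C σ * X)
    rw [funext eH] at h3
    exact on_of_smul hV.toCone (pow_ne_zero 1 (C_ne_zero.2 s0)) h3
  have e4 : ev 1 none (rd red H) = ev m (some (red β)) T := funext fun i => (dH i).2.trans (b1 i)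
  have mH : IsMap I 1 (rd red H) := by
    refine ⟨fun i => (dH i).1, h2.map (mapAlgHom red), fun p => ?_⟩
    rcases p with _ | u
    · exact ⟨i₀, (congrFun e4 i₀).trans_ne y0⟩
    rcases eq_or_ne u 0 with rfl | hu
    · exact ⟨i₁, (coeff_zero_eq_eval_zero _).symm.trans_ne nz⟩
    refine ⟨i₀, ?_⟩
    have h4 : (rd red H i₀).coeff 0 = 0 := by simp [rd, h1]
    rw [val, eq_X_add_C_of_natDegree_le_one (dH i₀).1, h4, C_0, add_zero, eval_mul, eval_C, eval_X]
    exact mul_ne_zero ((congrFun e4 i₀).trans_ne y0) hu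
  have m1 := bub_map mT (red β)
  obtain ⟨d₁, c1⟩ := bub_curve hn m1 (by omega)
  obtain ⟨d₂, c2⟩ := bub_curve hn mH one_pos
  refine Two.breaks (red := red) (d := d₁ + d₂) hV hn hm ⟨m, 1, d₁, d₂, _, σ, H, rfl, le_rfl, s0,
    r0, c1, Gn.free hV hn m1 (Or.inr rfl) ?_, c2, Gn.free hV hn mH (Or.inl rfl) (e4 ▸ gb),
    fun i => ?_, eH⟩
  · rwa [show ev m (some 0) (fun i => (T i).comp (X + C (red β))) = ev m (some (red β)) T from
      funext fun i => by simp [ev, val, eval_comp]]
  · simp [e2, e1]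

end Pool.Agent.Lib.MP_41050a_ag.QM
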