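import Pool.Agent.Lib.MP_41050a_ag.NK.Main
import Pool.Agent.Lib.MP_41050a_ag.QM.A

/-! Tuples of polynomials with a fixed leading coefficient. -/

namespace Pool.Agent.Lib.MP_41050a_ag.QM

open Polynomial NK

set_option linter.unusedSectionVars false

noncomputable section

variable {k : Type} [Field k] {N n c e ι : ℕ}

/-- A smooth complete intersection of index `ι`. -/
structure Dat (I : Ideal (Pk k N)) (n : ℕ) (f : Fin c → Pk k N) (d : Fin c → ℕ) (ι : ℕ) :
    Prop where
  var : SmoothVar I
  dim : Dim I n k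
  gen : I = Ideal.span (Set.range f)
  hom : ∀ l, (f l).IsHomogeneous (d l)
  idx : ι + ∑ l, d l = N + 1
  deg : ∀ (Λ : Type) [Field Λ] [Algebra k Λ] [IsAlgClosed Λ] (e : ℕ) (F : V Λ[X] N) (b : ℤ),
    IsMap I e F → AntiK I n e F b → b = e * ι

/-- The indices of the lower coefficients. -/
abbrev Iy (N e : ℕ) : Type := Fin (N + 1) × Fin e

/-- The indices of the equations. -/
abbrev Iz (d : Fin c → ℕ) (e : ℕ) : Type := (l : Fin c) × Fin (d l * e)

/-- Leading coefficient `x`, lower coefficients `a`. -/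
def full {B : Type} (x : V B N) (a : Iy N e → B) : Ix N e → B :=
  fun s => Fin.snoc (α := fun _ => B) (fun j => a (s.1, j)) (x s.1) s.2

theorem full_last {B : Type} (x : V B N) (a : Iy N e → B) (i : Fin (N + 1)) :
    full x a (i, Fin.last e) = x i := Fin.snoc_last _ _

theorem full_cast {B : Type} (x : V B N) (a : Iy N e → B) (i : Fin (N + 1)) (j : Fin e) :
    full x a (i, j.castSucc) = a (i, j) := Fin.snoc_castSucc _ _ _

theorem full_map {B B' : Type} (φ : B → B') (x : V B N) (a : Iy N e → B) :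
    φ ∘ full x a = full (φ ∘ x) (φ ∘ a) := by
  funext ⟨i, j⟩
  refine Fin.lastCases ?_ (fun j => ?_) j
  · simp only [Function.comp, full_last]
  · simp only [Function.comp, full_cast]

theorem full_eq {B : Type} (ξ : Ix N e → B) :
    full (fun i => ξ (i, Fin.last e)) (fun s => ξ (s.1, s.2.castSucc)) = ξ := by
  funext ⟨i, j⟩
  refine Fin.lastCases ?_ (fun j => ?_) j
  · simp only [full_last]
  · simp only [full_cast]

theorem full_top {B : Type} [CommRing B] (x : V B N) (a : Iy N e → B)
    (i : Fin (N + 1)) : (pol (full x a) i).coeff e = x i :=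
  (pol_coeff _ i (Fin.last e)).trans (full_last x a i)

variable {K : Type} [Field K] [Algebra k K]

/-- The equations of the space of tuples on the cone with leading coefficient `x`. -/
def hh (f : Fin c → Pk k N) (d : Fin c → ℕ) (x : V K N) (e : ℕ) (j : Iz d e) :
    MvPolynomial (Iy N e) K :=
  (MvPolynomial.aeval (pol (full (fun i => MvPolynomial.C (x i)) MvPolynomial.X) :
    V (MvPolynomial (Iy N e) K)[X] N) (f j.1)).coeff j.2

variable {I : Ideal (Pk k N)} {f : Fin c → Pk k N} {d : Fin c → ℕ} {x : V K N}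
  {B : Type} [CommRing B] [Algebra k B] [Algebra K B] [IsScalarTower k K B]

theorem aeval_hh (a : Iy N e → B) (j : Iz d e) : MvPolynomial.aeval a (hh f d x e j) =
    (MvPolynomial.aeval (pol (full (algebraMap K B ∘ x) a)) (f j.1)).coeff j.2 := by
  let φ := (MvPolynomial.aeval a : MvPolynomial (Iy N e) K →ₐ[K] B).restrictScalars k
  have h := congrArg (coeff · j.2) (map_aev_poly φ
    (pol (full (fun i => MvPolynomial.C (x i)) MvPolynomial.X)) (f j.1))
  simp only [coeff_map] at h
  refine h.trans (congrArg (fun F : V B[X] N => (MvPolynomial.aeval F (f j.1)).coeff j.2)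
    (funext fun i => ?_))
  rw [pol_map, full_map]
  congr 2 <;> funext s <;> simp [φ]

theorem hh_iff (h : Dat I n f d ι) (hx : On I x) (a : Iy N e → B) :
    (∀ j, MvPolynomial.aeval a (hh f d x e j) = 0) ↔
      On I (pol (full (algebraMap K B ∘ x) a)) := by
  simp only [aeval_hh]
  refine ⟨fun h0 => ?_, fun h0 j => ?_⟩
  · have h1 : ∀ l, MvPolynomial.aeval (pol (full (algebraMap K B ∘ x) a)) (f l) = 0 := fun l => by
      obtain ⟨h2, h3⟩ := coeff_aev (h.hom l) (pol_deg (full (algebraMap K B ∘ x) a))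
      ext m
      rcases lt_trichotomy m (d l * e) with hm | rfl | hm
      · exact h0 ⟨l, m, hm⟩
      · rw [h3]
        simp only [full_top]
        exact hx.map (IsScalarTower.toAlgHom k K B) _ (h.gen ▸ Ideal.subset_span ⟨l, rfl⟩)
      · exact coeff_eq_zero_of_natDegree_lt (h2.trans_lt hm)
    intro Φ hΦ
    rw [h.gen] at hΦ
    exact (Ideal.span_le (I := RingHom.ker (MvPolynomial.aeval
      (pol (full (algebraMap K B ∘ x) a)) : Pk k N →ₐ[k] B[X]))).2
        (by rintro _ ⟨l, rfl⟩; exact h1 l) hΦ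
  · rw [h0 _ (h.gen ▸ Ideal.subset_span ⟨j.1, rfl⟩), coeff_zero]

theorem card_iy (h : Dat I n f d ι) (e : ℕ) :
    Fintype.card (Iy N e) = ι * e + Fintype.card (Iz d e) := by
  simp only [Fintype.card_prod, Fintype.card_fin, Fintype.card_sigma, ← Finset.sum_mul, ← add_mul,
    h.idx]

/-- One simple base point, at a generic point of the variety. -/
def Good (I : Ideal (Pk k N)) {Λ : Type} [Field Λ] [Algebra k Λ] (e : ℕ) (F : V Λ[X] N) : Prop :=
  ∃ (b : Λ) (T : V Λ[X] N) (e' : ℕ), e = e' + 1 ∧ (∀ i, F i = (X - C b) * T i) ∧ IsMap I e' T ∧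
    Gn I (ev e' none T) ∧ Gn I (ev e' (some b) T)

/-- The coordinates of `a` generate a field of transcendence degree at least `m`. -/
def Td (K : Type) [Field K] {Λ σ : Type} [Field Λ] [Algebra K Λ] (a : σ → Λ) (m : ℕ) : Prop :=
  Ind K (IntermediateField.adjoin K (Set.range a) : Set Λ) m

end

end Pool.Agent.Lib.MP_41050a_ag.QM
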