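import Pool.Agent.Lib.MP_41050a_ag.QM.Def
import Pool.Agent.Lib.MP_41050a_ag.CI.Brg

/-! The Jacobian matrix at a free map. -/

namespace Pool.Agent.Lib.MP_41050a_ag.QM

open Polynomial NK

set_option linter.unusedSectionVars false

variable {k : Type} [Field k] [IsAlgClosed k] [CharZero k] {N n c e ι : ℕ} {I : Ideal (Pk k N)}
  {f : Fin c → Pk k N} {d : Fin c → ℕ} {K Λ : Type} [Field K] [Algebra k K]
  [Field Λ] [IsAlgClosed Λ] [Algebra k Λ] [Algebra K Λ] [IsScalarTower k K Λ] {x : V K N}
  {a : Iy N e → Λ}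

/-- The tuple with leading coefficient zero. -/
noncomputable def jg (Λ : Type) [Field Λ] (N e : ℕ) : (Iy N e → Λ) →ₗ[Λ] V Λ[X] N :=
  LinearMap.pi fun i => ∑ j : Fin e, monomial (j : ℕ) ∘ₗ LinearMap.proj (i, j)

theorem jg_coeff (v : Iy N e → Λ) (i : Fin (N + 1)) (m : ℕ) :
    (jg Λ N e v i).coeff m = if h : m < e then v (i, ⟨m, h⟩) else 0 := by
  simp only [jg, LinearMap.pi_apply, LinearMap.sum_apply, LinearMap.comp_apply,
    LinearMap.proj_apply, finsetSum_coeff, coeff_monomial]
  split_ifs with h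
  · rw [Finset.sum_eq_single ⟨m, h⟩ (fun b _ hb => if_neg fun e => hb (Fin.ext e)) (by simp),
      if_pos rfl]
  · exact Finset.sum_eq_zero fun b _ => if_neg fun (e' : (b : ℕ) = m) => h (e' ▸ b.2)

theorem jac_entry (j : Iz d e) (s : Iy N e) :
    MvPolynomial.aeval a (MvPolynomial.pderiv s (hh f d x e j)) =
      (∑ i, MvPolynomial.aeval (pol (full (algebraMap K Λ ∘ x) a)) (MvPolynomial.pderiv i (f j.1)) *
        jg Λ N e (Pi.single s 1) i).coeff j.2 := by
  let φ := (MvPolynomial.aeval a : MvPolynomial (Iy N e) K →ₐ[K] Λ).restrictScalars k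
  let U : V (MvPolynomial (Iy N e) K)[X] N :=
    pol (full (fun i => MvPolynomial.C (x i)) MvPolynomial.X)
  let D := PolynomialModule.equivPolynomialSelf.toLinearMap.compDer
    ((MvPolynomial.pderiv s : Derivation K (MvPolynomial (Iy N e) K) _).restrictScalars k).mapCoeffs
  have hD : ∀ p m, (D p).coeff m = MvPolynomial.pderiv s (p.coeff m) := fun _ _ => rfl
  have h1 := congrArg (fun p => (p.map (φ : _ →+* Λ)).coeff j.2) (two_chain U D (f j.1))
  simp only [coeff_map, hD] at h1
  refine h1.symm.trans ?_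
  rw [← coeff_map, Polynomial.map_sum]
  refine congrArg (coeff · j.2) (Finset.sum_congr rfl fun i _ => ?_)
  rw [Polynomial.map_mul, map_aev_poly]
  congr 1
  · refine congrArg (MvPolynomial.aeval · _) (funext fun i => ?_)
    rw [pol_map, full_map]
    congr 2 <;> funext s <;> simp [φ]
  · ext m
    rw [coeff_map, hD, jg_coeff]
    rcases lt_trichotomy m e with hm | rfl | hm
    · rw [dif_pos hm, show (U i).coeff m = MvPolynomial.X (i, ⟨m, hm⟩) from
        (pol_coeff _ i (Fin.castSucc ⟨m, hm⟩)).trans (full_cast _ _ i _)]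
      simp [φ, MvPolynomial.pderiv_X, Pi.single_apply]
    · rw [dif_neg (lt_irrefl _), full_top, MvPolynomial.pderiv_C, map_zero]
    · rw [dif_neg hm.not_gt, coeff_eq_zero_of_natDegree_lt ((pol_deg _ i).trans_lt hm), map_zero,
        map_zero]

/-- The map `v ↦ (∑ s, ∂ₛ hh j (a) * v s)ⱼ` sends `v` to the coefficients of
`∑ i, ∂ᵢ f l (F) * G i`, `G = pol (full 0 v)` (a polynomial of degree `< d l * e`). Its kernel is
the space of `G ∈ sec I e F` with leading coefficient zero, of rank `e * ι` (`rank_secAt` at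
`none`, `exists_frame`, `Dat.deg`), so it is onto by `card_iy`. -/
theorem jac (h : Dat I n f d ι) (hF : IsMap I e (pol (full (algebraMap K Λ ∘ x) a)))
    (hf : Free I e (pol (full (algebraMap K Λ ∘ x) a))) :
    LinearIndependent Λ fun (j : Iz d e) (s : Iy N e) =>
      MvPolynomial.aeval a (MvPolynomial.pderiv s (hh f d x e j)) := by
  classical
  have h1 := fun j s => jac_entry (f := f) (d := d) (x := x) (a := a) j s
  set F := pol (full (algebraMap K Λ ∘ x) a)
  let L := Matrix.mulVecLin (Matrix.of fun (j : Iz d e) (s : Iy N e) =>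
    MvPolynomial.aeval a (MvPolynomial.pderiv s (hh f d x e j)))
  have h2 : ∀ v j, L v j = (∑ i, MvPolynomial.aeval F (MvPolynomial.pderiv i (f j.1)) *
      jg Λ N e v i).coeff j.2 := fun v j => by
    change ∑ s, MvPolynomial.aeval a (MvPolynomial.pderiv s (hh f d x e j)) * v s = _
    conv_rhs => rw [pi_eq_sum_univ' v]
    simp only [h1, map_sum, map_smul, Finset.sum_apply, Pi.smul_apply, Finset.mul_sum,
      finsetSum_coeff, mul_smul_comm, coeff_smul, smul_eq_mul, Finset.sum_mul]
    rw [Finset.sum_comm]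
    simp only [mul_comm]
  obtain ⟨δ, G, hG⟩ := exists_frame h.dim hF
  obtain ⟨hfin, hr⟩ := rank_secAt h.var h.dim hF hf ⟨δ, G, hG, rfl⟩ none
  rw [h.deg Λ e F _ hF ⟨δ, G, hG, rfl⟩] at hr
  have h3 : ∀ v, ev e none (jg Λ N e v) = 0 := fun v => funext fun i =>
    (jg_coeff v i e).trans (dif_neg (lt_irrefl _))
  have h4 : (LinearMap.ker L).map (jg Λ N e) < secAt I e F none := by
    refine lt_of_le_of_ne ?_ fun e => ?_
    · rintro _ ⟨v, hv, rfl⟩
      refine ⟨⟨fun i => natDegree_le_iff_coeff_eq_zero.2 fun m hm =>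
        (jg_coeff v i m).trans (dif_neg hm.not_gt), ?_⟩, 0, by rw [h3, zero_smul]⟩
      have h5 := hF.on
      rw [h.gen] at h5 ⊢
      refine (CI.c_tg h5).2 fun l => Polynomial.ext fun m => ?_
      by_cases hm : m < d l * e
      · exact (h2 v ⟨l, m, hm⟩).symm.trans (congrFun hv _)
      rw [finsetSum_coeff]
      refine Finset.sum_eq_zero fun i _ => ?_
      rcases hd : d l with _ | b
      · rw [(MvPolynomial.totalDegree_eq_zero_iff_eq_C (p := f l)).1
          (Nat.le_zero.1 (hd ▸ (h.hom l).totalDegree_le)), MvPolynomial.pderiv_C]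
        simp
      rw [coeff_mul]
      refine Finset.sum_eq_zero fun y hy => ?_
      have h6 := (coeff_aev ((h.hom l).pderiv (i := i)) hF.deg).1
      rw [hd, add_mul, one_mul] at hm
      rw [hd, Nat.add_sub_cancel] at h6
      have := Finset.HasAntidiagonal.mem_antidiagonal.1 hy
      by_cases h7 : y.2 < e
      · rw [coeff_eq_zero_of_natDegree_lt (h6.trans_lt (by omega)), zero_mul]
      · rw [jg_coeff, dif_neg h7, mul_zero]
    · obtain ⟨v, -, hv⟩ := e.ge (secb1_self h.var hF none)
      exact ev_ne hF none (hv ▸ h3 v)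
  have h5 := Submodule.finrank_lt_finrank_of_lt h4
  rw [← (Submodule.equivMapOfInjective _ ((injective_iff_map_eq_zero _).2 fun v hv =>
    _root_.funext fun s : Iy N e => by simpa [hv] using (jg_coeff v s.1 s.2).symm) _).finrank_eq]
    at h5
  have h6 := L.finrank_range_add_finrank_ker
  rw [Module.finrank_fintype_fun_eq_card, card_iy h, mul_comm] at h6
  have h7 : LinearMap.range L = ⊤ := Submodule.eq_top_of_finrank_eq (le_antisymm
    (Submodule.finrank_le _) (by
      rw [Module.finrank_fintype_fun_eq_card]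
      rw [← Nat.cast_mul] at hr
      omega))
  refine Fintype.linearIndependent_iff.2 fun z hz j => ?_
  obtain ⟨v, hv⟩ := LinearMap.range_eq_top.1 h7 (Pi.single j 1)
  have h8 := Matrix.dotProduct_mulVec z _ v ▸ congrArg (z ⬝ᵥ ·) hv
  rw [Matrix.vecMul_eq_sum, show ∑ i, z i • (Matrix.of fun (j : Iz d e) (s : Iy N e) =>
    MvPolynomial.aeval a (MvPolynomial.pderiv s (hh f d x e j))) i = 0 from hz] at h8
  simpa using h8.symm

end Pool.Agent.Lib.MP_41050a_ag.QM
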