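import Pool.Agent.Lib.MP_41050a_ag.QM.B
import Pool.Agent.Lib.MP_41050a_ag.QM.B2
import Pool.Agent.Lib.MP_41050a_ag.QM.C
import Pool.Agent.Lib.MP_41050a_ag.QM.D
import Pool.Agent.Lib.MP_41050a_ag.QM.E

/-! A free line breaks off. -/

namespace Pool.Agent.Lib.MP_41050a_ag.QM

open Polynomial NK

set_option linter.unusedSectionVars false

variable {k : Type} [Field k] [IsAlgClosed k] [CharZero k] {N n c e ι : ℕ} {I : Ideal (Pk k N)}
  {f : Fin c → Pk k N} {d : Fin c → ℕ} {K Λ : Type} [Field K] [IsAlgClosed K] [Algebra k K]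
  [Field Λ] [IsAlgClosed Λ] [Algebra k Λ] {x : V K N} {P : Ideal (MvPolynomial (Ix N e) k)}

theorem tower (k K B : Type) [Field k] [Field K] [Algebra k K] [CommRing B] [Algebra K B] :
    ∃ _ : Algebra k B, IsScalarTower k K B :=
  let _ := ((algebraMap K B).comp (algebraMap k K)).toAlgebra
  ⟨_, .of_algebraMap_eq fun _ => rfl⟩

theorem val_pt {E σ : Type} [Field E] [Algebra K E] (η : σ → E) (r : Ideal (MvPolynomial σ K))
    [r.IsPrime] (h : ∀ g, MvPolynomial.aeval η g = 0 → g ∈ r) :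
    ∃ (O Λ : Type) (_ : CommRing O) (_ : IsDomain O) (_ : ValuationRing O) (_ : Algebra K O)
      (_ : Algebra O E) (_ : IsFractionRing O E) (_ : IsScalarTower K O E) (_ : Field Λ)
      (_ : Algebra K Λ) (red : O →ₐ[K] Λ) (η' : σ → O), Res red ∧
      (∀ s, algebraMap O E (η' s) = η s) ∧ ∀ g, MvPolynomial.aeval (red ∘ η') g = 0 ↔ g ∈ r := by
  obtain ⟨O, h1, h2⟩ := val1_ring (MvPolynomial.aeval η : MvPolynomial σ K →ₐ[K] E).toRingHom r h
  let _ : Algebra K O := ((algebraMap K E).codRestrict O fun a => by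
    simpa using h1 (MvPolynomial.C a)).toAlgebra
  have : IsScalarTower K O E := .of_algebraMap_eq fun _ => rfl
  let red := IsScalarTower.toAlgHom K O (IsLocalRing.ResidueField O)
  let η' : σ → O := fun s => ⟨η s, by simpa using h1 (MvPolynomial.X s)⟩
  refine ⟨O, IsLocalRing.ResidueField O, inferInstance, inferInstance, inferInstance,
    inferInstance, inferInstance, inferInstance, inferInstance, inferInstance, inferInstance, red,
    η', ⟨IsLocalRing.residue_surjective, fun a =>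
      (IsLocalRing.residue_ne_zero_iff_isUnit a).1⟩, fun _ => rfl, fun g => ?_⟩
  rw [← h2]
  refine ((MvPolynomial.comp_aeval_apply η' red g).symm ▸ (IsLocalRing.residue_eq_zero_iff _).trans
    O.coe_mem_nonunits_iff.symm : _ ↔ _).trans (Eq.to_iff (congrArg (· ∈ _) ?_))
  exact MvPolynomial.comp_aeval_apply η' (IsScalarTower.toAlgHom K O E) g

theorem gn_map (hV : Cone I) (hn : Dim I n k) (φ : K →ₐ[k] Λ) (h0 : x ≠ 0) (hx : On I x)
    (hg : Gn I x) : Gn I (φ ∘ x) := by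
  obtain ⟨i, hi⟩ := Function.ne_iff.1 h0
  have hi' : x i ≠ 0 := hi
  have p1 : Par x ((x i)⁻¹ • x) := ⟨_, inv_ne_zero hi', rfl⟩
  have p2 : Par (φ ∘ ((x i)⁻¹ • x)) (φ ∘ x) := ⟨φ (x i), (_root_.map_ne_zero φ).2 hi',
    funext fun j => by simp [hi']⟩
  exact p2.gn hV (Gn.transfer hV hn (i := i) (by simp [hi']) (by simp [hi']) (p1.on hV hx)
    ((p1.on hV hx).map φ) (fun q hq => (map_eq_zero φ).1 ((map_aev φ _ q).trans hq)) (p1.gn hV hg))

theorem isMap_map (φ : K →ₐ[k] Λ) {T : V K[X] N} (hT : IsMap I e T) :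
    IsMap I e fun i => (T i).map (φ : K →+* Λ) :=
  ⟨((isMap_bp hT).ext _).deg, hT.on.map (mapAlgHom φ), ((isMap_bp hT).ext _).bpf⟩

theorem Good.map (hV : SmoothVar I) (hn : Dim I n k) (φ : K →ₐ[k] Λ) {F : V K[X] N}
    (h : Good I e F) : Good I e fun i => (F i).map (φ : K →+* Λ) := by
  obtain ⟨b, T, e', h1, h2, hT, h3, h4⟩ := h
  refine ⟨φ b, _, e', h1, fun i => by simp [h2], isMap_map φ hT, ?_, ?_⟩
  · convert gn_map hV.toCone hn φ (ev_ne hT _) (On.val hV hT _) h3 using 1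
    exact funext fun i => coeff_map _ _
  · convert gn_map hV.toCone hn φ (ev_ne hT _) (On.val hV hT _) h4 using 1
    exact funext fun i => eval_map_apply _ _

theorem aeval_full {B : Type} [CommRing B] [Algebra k B] [Algebra K B] [IsScalarTower k K B]
    (a : Iy N e → B) (g : MvPolynomial (Ix N e) k) :
    MvPolynomial.aeval (full (algebraMap K B ∘ x) a) g = MvPolynomial.aeval a
      (MvPolynomial.aeval (full (MvPolynomial.C ∘ x) MvPolynomial.X : _ →
        MvPolynomial (Iy N e) K) g) := by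
  let φ := (MvPolynomial.aeval a : MvPolynomial (Iy N e) K →ₐ[K] B).restrictScalars k
  refine Eq.trans (congrArg (MvPolynomial.aeval · g) ?_) (MvPolynomial.comp_aeval_apply _ φ g).symm
  refine Eq.trans ?_ (full_map φ _ _).symm
  congr 1 <;> funext s <;> simp [φ]

theorem span_iff (h : Dat I n f d ι) (hx : On I x) {B : Type} [CommRing B] [Algebra k B]
    [Algebra K B] [IsScalarTower k K B] (a : Iy N e → B) :
    Ideal.span (Set.range (hh f d x e)) ≤ RingHom.ker (MvPolynomial.aeval a : _ →ₐ[K] B) ↔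
      On I (pol (full (algebraMap K B ∘ x) a)) := by
  rw [← hh_iff h hx, Ideal.span_le, Set.range_subset_iff]
  rfl

/-- Every component passes through the origin. -/
theorem origin (h : Dat I n f d ι) (hx : On I x) {q : Ideal (MvPolynomial (Iy N e) K)}
    (hq : q ∈ (Ideal.span (Set.range (hh f d x e))).minimalPrimes) :
    ∀ g ∈ q, MvPolynomial.constantCoeff g = 0 := by
  obtain ⟨Λ, _, _, _, a, ha⟩ := exists_generic hq.1.1
  obtain ⟨_, _⟩ := tower k K Λ
  have h1 := rot_on h.var.toCone ((span_iff h hx a).1 fun g hg => (ha g).2 (hq.1.2 hg))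
  let a' : Iy N e → Λ[X] := fun s => C (a s) * X ^ (e - s.2)
  have h2 : (fun s : Ix N e => (C (full (algebraMap K Λ ∘ x) a s) * X ^ (e - s.2) : Λ[X])) =
      full (algebraMap K Λ[X] ∘ x) a' := by
    funext ⟨i, j⟩
    refine Fin.lastCases ?_ (fun j => ?_) j
    · simp [full_last]
    · simp [full_cast, a']
  have h3 : ∀ (t : Λ) g, (MvPolynomial.aeval a' g).eval t =
      MvPolynomial.aeval (fun s => (a' s).eval t) g := fun t g =>
    MvPolynomial.comp_aeval_apply a' ((aeval t : Λ[X] →ₐ[Λ] Λ).restrictScalars K) g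
  intro g hg
  have h4 : MvPolynomial.aeval a' g = 0 := hq.2 ⟨RingHom.ker_isPrime _,
    (span_iff h hx a').2 (h2 ▸ h1)⟩ (fun g hg => (ha g).1 (by
      simpa [a', RingHom.mem_ker.1 hg] using (h3 1 g).symm)) hg
  have h5 := h3 0 g
  rw [h4, eval_zero, show (fun s => (a' s).eval 0) = 0 from funext fun s => by
    simp [a', (Nat.sub_pos_of_lt s.2.2).ne'], MvPolynomial.aeval_zero] at h5
  exact (algebraMap K Λ).injective (h5.symm.trans (map_zero _).symm)

/-- A point with one simple base point. -/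
theorem good_pt (h : Dat I n f d ι) (h2 : 2 ≤ ι) (h0 : x ≠ 0) (hx : On I x) (hg : Gn I x)
    (e : ℕ) : ∃ (Λ : Type) (_ : Field Λ) (_ : IsAlgClosed Λ) (_ : Algebra K Λ) (_ : Algebra k Λ)
      (_ : IsScalarTower k K Λ) (a : Iy N (e + 1) → Λ), On I (pol (full (algebraMap K Λ ∘ x) a)) ∧
        Good I (e + 1) (pol (full (algebraMap K Λ ∘ x) a)) := by
  have h1 : pol (full (algebraMap K K ∘ x) (0 : Iy N e → K)) = (X ^ e : K[X]) • (C ∘ x) := by
    funext i
    simp [pol, Fin.sum_univ_castSucc, full_last, full_cast, C_mul_X_pow_eq_monomial]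
  obtain ⟨q, hq, -⟩ := Ideal.exists_minimalPrimes_le (J := pt 0) ((span_iff h hx (0 : Iy N e → K)).2
    (h1 ▸ (hx.map ((CAlgHom : K →ₐ[K] K[X]).restrictScalars k)).smul h.var.toCone _))
  obtain ⟨L, _, _, _, a₀, ha₀⟩ := exists_generic hq.1.1
  obtain ⟨Λ, _, _, _, t, ht⟩ := exists_generic (k := L) (σ := Fin 1) (P := ⊥) Ideal.isPrime_bot
  obtain ⟨_, _⟩ := tower K L Λ
  obtain ⟨_, _⟩ := tower k K Λ
  obtain ⟨_, _⟩ := tower k K L
  have : IsScalarTower k L Λ := .of_algebraMap_eq fun b => by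
    rw [IsScalarTower.algebraMap_apply k K L, ← IsScalarTower.algebraMap_apply K L Λ,
      ← IsScalarTower.algebraMap_apply]
  have : CharZero L := charZero_of_injective_algebraMap (algebraMap k L).injective
  let φ := IsScalarTower.toAlgHom K L Λ
  have ha : ∀ g, MvPolynomial.aeval (φ ∘ a₀) g = 0 ↔ g ∈ q := fun g => by
    rw [← ha₀, ← map_eq_zero φ, MvPolynomial.comp_aeval_apply]
    rfl
  have h3 := (span_iff h hx _).1 fun g hg => (ha g).2 (hq.1.2 hg)
  have h4 := gn_map h.var.toCone h.dim (IsScalarTower.toAlgHom k K Λ) h0 hx hg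
  have hT := (count h h2 h0 h4 h3 (dim_ge (card_iy h e) hq ha)).2.resolve_right (by omega)
  obtain ⟨D, hD⟩ := exists_dual (algebraicIndependent_iff.2 fun g hg => (ht g).1 hg)
  have h5 : ∀ i j, D 0 ((pol (full (algebraMap K Λ ∘ x) (φ ∘ a₀)) i).coeff j) = 0 := fun i j => by
    rw [show full (algebraMap K Λ ∘ x) (φ ∘ a₀) = algebraMap L Λ ∘ full (algebraMap K L ∘ x) a₀ from
      (full_map _ _ _).symm ▸ congrArg (full · _) (funext fun i =>
        IsScalarTower.algebraMap_apply K L Λ _), ← pol_map, coeff_map, Derivation.map_algebraMap]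
  have h6 : ∀ i, (pol (full (algebraMap K Λ ∘ x) (φ ∘ a₀)) i).coeff e = algebraMap K Λ (x i) :=
    full_top _ _
  generalize pol (full (algebraMap K Λ ∘ x) (φ ∘ a₀)) = T at hT h5 h6
  have h7 : Gn I (ev e none T) := (funext h6 : ev e none T = _) ▸ h4
  obtain ⟨γ, hγ⟩ := exists_pol (F := (X - C (t 0)) • T) (e := e + 1) fun i =>
    natDegree_mul_le.trans (by have := hT.deg i; rw [natDegree_X_sub_C]; omega)
  have h8 : full (algebraMap K Λ ∘ x) (fun s => γ (s.1, s.2.castSucc)) = γ := by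
    refine Eq.trans (congrArg (full · _) (funext fun i => ?_)) (full_eq γ)
    rw [← pol_coeff γ, hγ, Pi.smul_apply, smul_eq_mul, Fin.val_last, add_comm e,
      coeff_mul_add_eq_of_natDegree_le (natDegree_X_sub_C_le _) (hT.deg i), h6]
    simp
  refine ⟨Λ, _, ‹_›, _, _, ‹_›, fun s => γ (s.1, s.2.castSucc), ?_⟩
  rw [h8, hγ]
  refine ⟨hT.on.smul h.var.toCone _, t 0, T, e, rfl, fun _ => rfl, hT, h7,
    Gn.root h.var h.dim hT h7 fun hA => ?_⟩
  have h9 := hA (x := (D 0).restrictScalars k) (by rintro _ ⟨i, j, rfl⟩; exact h5 i j) _ rfl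
  exact one_ne_zero ((hD 0 0).symm.trans h9)

theorem core (h : Dat I n f d ι) (h2 : 2 ≤ ι) (he : 2 ≤ e) (hP : P ∈ (eqs I e).minimalPrimes)
    (hG : GenFree I e P) (h0 : x ≠ 0) (hx : On I x) (hg : Gn I x) {a₀ a₁ : Iy N e → K}
    (hξ : ∀ g, MvPolynomial.aeval (full (algebraMap K K ∘ x) a₀) g = 0 ↔ g ∈ P)
    (h3 : On I (pol (full (algebraMap K K ∘ x) a₁)))
    (h4 : Good I e (pol (full (algebraMap K K ∘ x) a₁))) : BreaksN I e P := by
  obtain ⟨p, hp, hp0⟩ := Ideal.exists_minimalPrimes_le (J := pt a₀) ((span_iff h hx a₀).2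
    (eqs_iff.1 fun g hg => (hξ g).2 (hP.1.2 hg)))
  have h5 : 2 * 2 ≤ ι * e := Nat.mul_le_mul h2 he
  have key : ∃ r : Ideal (MvPolynomial (Iy N e) K), r.IsPrime ∧ p ≤ r ∧
      ∀ (Λ : Type) [Field Λ] [IsAlgClosed Λ] [Algebra K Λ] [Algebra k Λ] [IsScalarTower k K Λ]
        (a : Iy N e → Λ), (∀ g, MvPolynomial.aeval a g = 0 ↔ g ∈ r) →
          Good I e (pol (full (algebraMap K Λ ∘ x) a)) := by
    rcases conn_poly (n := ι * e - 2) (by rw [card_iy h]; omega) (fun q hq => origin h hx hq)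
      (fun Λ _ _ _ a ha hm => by
        obtain ⟨_, _⟩ := tower k K Λ
        have := (count h h2 h0 (gn_map h.var.toCone h.dim (IsScalarTower.toAlgHom k K Λ) h0 hx hg)
          ((hh_iff h hx a).1 ha) hm).1
        omega) hp with h6 | ⟨q, hq, hne, r, hr, h6, h7, h8⟩
    · obtain ⟨q, hq, hq1⟩ := Ideal.exists_minimalPrimes_le (J := pt a₁) ((span_iff h hx a₁).2 h3)
      refine ⟨_, pt_prime a₁, h6 q hq ▸ hq1, fun Λ _ _ _ _ _ a ha => ?_⟩
      have h7 : a = algebraMap K Λ ∘ a₁ := funext fun s => by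
        have := (ha (MvPolynomial.X s - MvPolynomial.C (a₁ s))).2 (by simp [mem_pt])
        rwa [map_sub, MvPolynomial.aeval_X, MvPolynomial.aeval_C, sub_eq_zero] at this
      convert h4.map h.var h.dim (IsScalarTower.toAlgHom k K Λ) using 1
      funext i
      rw [pol_map, full_map, h7]
      rfl
    · refine ⟨r, hr, h6, fun Λ _ _ _ _ _ a ha => ?_⟩
      have h9 := gn_map h.var.toCone h.dim (IsScalarTower.toAlgHom k K Λ) h0 hx hg
      rcases (count h h2 h0 h9 ((span_iff h hx a).1 fun g hg => (ha g).2 (h6 (hp.1.2 hg)))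
        (h8 Λ a ha)).2 with hF | ⟨-, h10 | h10⟩
      · exact absurd (uniq_smooth (jac h hF (Gn.free h.var h.dim hF (.inl rfl)
          ((funext (full_top _ a) : ev e none _ = _) ▸ h9))) hq hp (fun g hg => (ha g).2 (h7 hg))
          fun g hg => (ha g).2 (h6 hg)) hne
      · exact h10
      · omega
  obtain ⟨r, hr, h6, h7⟩ := key
  obtain ⟨E, _, _, _, η, hη⟩ := exists_generic hp.1.1
  obtain ⟨O, Λ, _, _, _, _, _, _, _, _, _, red, η', hr, h8, h9⟩ :=
    val_pt η r fun g hg => h6 ((hη g).1 hg)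
  obtain ⟨_, _⟩ := tower k K E
  obtain ⟨_, _⟩ := tower k K O
  obtain ⟨_, _⟩ := tower k K Λ
  have : IsScalarTower k O E := .of_algebraMap_eq fun b => by
    rw [IsScalarTower.algebraMap_apply k K O, ← IsScalarTower.algebraMap_apply K O E,
      ← IsScalarTower.algebraMap_apply]
  have hr' : Res (red.restrictScalars k) := ⟨hr.1, hr.2⟩
  have := hr'.algClosed E
  have e1 : algebraMap O E ∘ full (algebraMap K O ∘ x) η' = full (algebraMap K E ∘ x) η := by
    rw [full_map]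
    exact congrArg₂ full (funext fun i => (IsScalarTower.algebraMap_apply K O E _).symm)
      (funext h8)
  have e2 : red ∘ full (algebraMap K O ∘ x) η' = full (algebraMap K Λ ∘ x) (red ∘ η') := by
    rw [full_map]
    exact congrArg (full · _) (funext fun i => red.commutes _)
  have h10 : RingHom.ker (MvPolynomial.aeval (full (algebraMap K E ∘ x) η) : _ →ₐ[k] E) ≤ P :=
    fun g hg => (hξ g).1 ((aeval_full a₀ g).trans (hp0 ((hη _).1 ((aeval_full η g).symm.trans hg))))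
  have hγ : ∀ g, MvPolynomial.aeval (algebraMap O E ∘ full (algebraMap K O ∘ x) η') g = 0 ↔
      g ∈ P := fun g => e1 ▸ ⟨fun hg => h10 hg, fun hg => hP.2 ⟨RingHom.ker_isPrime _,
        fun a ha => eqs_iff.2 ((span_iff h hx η).1 fun g hg => (hη g).2 (hp.1.2 hg)) a ha⟩ h10 hg⟩
  exact bubble h.var h.dim hP hr' hγ (generic_isMap hP hG hγ) he (e2 ▸ h7 Λ _ h9 :)

theorem main (h : Dat I n f d ι) (h2 : 2 ≤ ι) (he : 2 ≤ e) (hP : P ∈ (eqs I e).minimalPrimes)
    (hG : GenFree I e P) : BreaksN I e P := by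
  obtain ⟨e, rfl⟩ : ∃ e', e = e' + 1 := ⟨e - 1, by omega⟩
  obtain ⟨E, _, _, _, ξ, hξ⟩ := exists_generic hP.1.1
  obtain ⟨hF, hf, -⟩ := generic_curve (c := (e + 1 : ℕ) * ι) h.var h.dim hP hξ
    (hG.imp fun _ => And.imp_right fun H a h1 h3 => ⟨(H a h1 h3).1, (H a h1 h3).2, by
      obtain ⟨δ, G, hG⟩ := exists_frame h.dim (H a h1 h3).1
      exact ⟨_, (h.deg k _ _ _ (H a h1 h3).1 ⟨δ, G, hG, rfl⟩).ge, δ, G, hG, rfl⟩⟩)
  have h0 := ev_ne hF none
  have hx := On.val h.var hF none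
  have hg := generic_gn h.var hP hξ hF hf (.inl rfl)
  obtain ⟨K, _, _, _, _, _, a₁, h3, h4⟩ := good_pt h h2 h0 hx hg e
  let φ := IsScalarTower.toAlgHom k E K
  refine core (x := φ ∘ ev (e + 1) none (pol ξ)) (a₀ := fun s => φ (ξ (s.1, s.2.castSucc))) h h2 he
    hP hG (fun h5 => h0 (funext fun i => φ.injective ((congrFun h5 i).trans (map_zero φ).symm)))
    (hx.map φ) (gn_map h.var.toCone h.dim φ h0 hx hg) (fun g => ?_) h3 h4
  rw [← hξ, ← map_eq_zero φ, MvPolynomial.comp_aeval_apply]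
  refine Eq.to_iff (congrArg (MvPolynomial.aeval · g = 0) (Eq.trans ?_ (full_eq _)))
  exact congrArg (full · _) (funext fun i => congrArg φ (pol_coeff ξ i (Fin.last _)))

end Pool.Agent.Lib.MP_41050a_ag.QM
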