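import Pool.Agent.Lib.MP_41050a_ag.QM.B
import Pool.Agent.Lib.MP_41050a_ag.QM.B2
import Pool.Agent.Lib.MP_41050a_ag.CI.Brg

/-! The ideal of a smooth complete intersection of positive dimension is prime. -/

namespace Pool.Agent.Lib.MP_41050a_ag.QM

open MvPolynomial NK

set_option linter.unusedSectionVars false

variable {k : Type} [Field k] [IsAlgClosed k] [CharZero k] {N n c : ℕ} {f : Fin c → Pk k N}
  {d : Fin c → ℕ}

theorem td_le (ns : CI.NSc f) (hn : n + c = N) {Λ : Type} [Field Λ] [Algebra k Λ] {x : V Λ N}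
    (h0 : ∀ i, aeval x (f i) = 0) : ¬Td k x (n + 2) := fun h => by
  refine h.not_cod le_rfl ?_
  by_cases hx : x = 0
  · refine (cod_zero ?_).mono (by omega)
    rintro D - _ ⟨i, rfl⟩
    simp [hx]
  obtain ⟨u, hu⟩ := CI.dual (ns Λ x hx h0)
  let L := Matrix.mulVecLin (Matrix.of fun i a => aeval x (pderiv a (f i)))
  have hL : LinearMap.range L = ⊤ := LinearMap.range_eq_top.2 fun v =>
    ⟨∑ i, v i • u i, funext fun j => by
      have : ∀ i, L (u i) j = if i = j then 1 else 0 := fun i => (dotProduct_comm _ _).trans (hu i j)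
      simp [this]⟩
  have := L.finrank_range_add_finrank_ker
  rw [hL, finrank_top, Module.finrank_fin_fun, Module.finrank_fin_fun] at this
  replace this := (show _ = n + 1 by omega : Module.finrank Λ (LinearMap.ker L) = n + 1)
  exact cod_of_map (DJ.dv k x) (T := LinearMap.ker L) (T' := ⊥) bot_le
    (fun D _ => funext fun i => (two_chain x D (f i)).trans (by rw [h0, map_zero]; rfl))
    (by rintro D - h _ ⟨i, rfl⟩; exact congrFun ((Submodule.mem_bot Λ).1 h) i)
    (by rw [finrank_bot]; exact (Int.ofNat_le.2 this.le).trans (by omega))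

theorem loc_mem (I : Ideal (Pk k N)) (a : V k N) (u : Pk k N) :
    algebraMap _ (Localization.AtPrime (pt a)) u ∈ I.map (algebraMap _ _) ↔
      ∃ s, aeval a s ≠ 0 ∧ s * u ∈ I :=
  IsLocalization.algebraMap_mem_map_algebraMap_iff (pt a).primeCompl _ I u

theorem cancel_org (hf : ∀ i, (f i).IsHomogeneous (d i)) {s u : Pk k N}
    (hs : aeval (0 : V k N) s ≠ 0) (hu : s * u ∈ Ideal.span (Set.range f)) :
    u ∈ Ideal.span (Set.range f) := by
  set I := Ideal.span (Set.range f)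
  let x : V (Pk k N ⧸ I) N := fun i => Ideal.Quotient.mk I (X i)
  have e0 : ∀ g, aeval x g = Ideal.Quotient.mk I g := fun g =>
    (map_aev (Ideal.Quotient.mkₐ k I) X g).symm.trans (by simp)
  have e1 : On I ((Polynomial.X : Polynomial (Pk k N ⧸ I)) • fun i => Polynomial.C (x i)) :=
    CI.c_on.2 fun i => by
      have := map_aev (Polynomial.CAlgHom (R := k)) x (f i)
      rw [e0, Ideal.Quotient.eq_zero_iff_mem.2 (Ideal.subset_span (Set.mem_range_self i)),
        map_zero] at this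
      exact (aev_smul (hf i) _ _).trans (mul_eq_zero_of_right _ this.symm)
  have e2 := e1 _ hu
  rw [map_mul, mul_left_mem_nonZeroDivisors_eq_zero_iff
    (Polynomial.mem_nonzeroDivisors_of_coeff_mem 0 ?_)] at e2
  · have e3 := congrArg (Polynomial.eval 1) e2
    rw [eval_aev] at e3
    simpa [e0, Ideal.Quotient.eq_zero_iff_mem] using e3
  · rw [Polynomial.coeff_zero_eq_eval_zero, eval_aev]
    refine IsUnit.mem_nonZeroDivisors ?_
    simpa using (Ne.isUnit hs).map (algebraMap k (Pk k N ⧸ I))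

theorem dp_org (h0 : ∀ i, aeval (0 : V k N) (f i) = 0) (ns : CI.NSc f) (hn : n + 1 + c = N) :
    Dp (n + 2) ((Ideal.span (Set.range f)).map
      (algebraMap _ (Localization.AtPrime (pt (0 : V k N))))) := by
  let R := Localization.AtPrime (pt (0 : V k N))
  let ι := algebraMap (Pk k N) R
  have h3 : ⊥ ⊔ Ideal.ofList (Finset.univ.toList.map fun j => ι (f j)) =
      (Ideal.span (Set.range f)).map ι := by
    rw [bot_sup_eq, Ideal.map_span, ← Set.range_comp]
    exact congrArg Ideal.span (Set.ext fun y => by simp)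
  rw [← h3]
  refine Dp.list ?_ (fun y hy => ?_) fun h5 => ?_
  · convert dp_point (0 : V k N) using 1
    simp only [List.length_map, Finset.length_toList, Finset.card_univ, Fintype.card_fin]
    omega
  · obtain ⟨j, -, rfl⟩ := List.mem_map.1 hy
    exact (IsLocalization.AtPrime.to_map_mem_maximal_iff R (pt (0 : V k N)) _).2 (h0 j)
  · rw [h3] at h5
    obtain ⟨r, h6, h7, h8⟩ := ch_dm h5
    obtain ⟨Λ, _, _, _, a, ha⟩ := exists_generic h6
    exact td_le ns hn (fun j => (ha _).2 (h7 (Ideal.mem_map_of_mem ι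
      (Ideal.subset_span ⟨j, rfl⟩)))) (td_of h6 h8 ha)

theorem off_org {I : Ideal (Pk k N)} {x : V k N}
    (h8 : (I.map (algebraMap _ (Localization.AtPrime (pt x)))).IsPrime) (v : Pk k N)
    (ha : ∀ s, s * v ∈ I → aeval x s = 0) :
    ∃ s, aeval x s ≠ 0 ∧ ∀ t, t * v ∈ I → s * t ∈ I := by
  have h9 : ∀ t, t * v ∈ I → ∃ s, aeval x s ≠ 0 ∧ s * t ∈ I := fun t ht => by
    have := Ideal.mem_map_of_mem (algebraMap _ (Localization.AtPrime (pt x))) ht
    rw [map_mul] at this
    refine (loc_mem I x t).1 ((h8.mem_or_mem this).resolve_right fun h => ?_)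
    obtain ⟨s, hs, hs'⟩ := (loc_mem I x v).1 h
    exact hs (ha s hs')
  obtain ⟨T, hT⟩ := IsNoetherian.noetherian (I.colon {v})
  choose! s hs hs' using fun t (ht : t ∈ T) =>
    h9 t (Submodule.mem_colon_singleton.1 (hT.le (Submodule.subset_span ht)))
  refine ⟨∏ t ∈ T, s t, by rw [map_prod]; exact Finset.prod_ne_zero_iff.2 hs, fun t ht => ?_⟩
  have h1 : I.colon {v} ≤ I.colon {∏ t ∈ T, s t} := hT.ge.trans (Submodule.span_le.2 fun t ht => by
    obtain ⟨w, hw⟩ := Finset.dvd_prod_of_mem s ht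
    refine Submodule.mem_colon_singleton.2 ?_
    rw [hw, smul_eq_mul, ← mul_assoc, mul_comm t]
    exact I.mul_mem_right _ (hs' t ht))
  rw [mul_comm]
  exact Submodule.mem_colon_singleton.1 (h1 (Submodule.mem_colon_singleton.2 ht))

theorem ci_prime (hf : ∀ i, (f i).IsHomogeneous (d i)) (hd : ∀ i, 1 ≤ d i) (ns : CI.NSc f)
    (hc : c < N) : (Ideal.span (Set.range f)).IsPrime := by
  obtain ⟨n, hn⟩ : ∃ n, n + 1 + c = N := ⟨N - c - 1, by omega⟩
  have h0 : ∀ i, aeval (0 : V k N) (f i) = 0 := fun i => DJ.brg_zero (hf i) (by have := hd i; omega)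
  have h4 := dp_org h0 ns hn
  have h1 := fun s u => cancel_org hf (s := s) (u := u)
  have h2 : ∀ x : V k N, x ≠ 0 → On (Ideal.span (Set.range f)) x → ((Ideal.span (Set.range f)).map
      (algebraMap _ (Localization.AtPrime (pt x)))).IsPrime := fun x hx h =>
    prime_smooth (ns k x hx (CI.c_on.1 h)) (CI.c_on.1 h)
  have h3 := CI.c_on.2 h0
  generalize Ideal.span (Set.range f) = I at *
  let ι := algebraMap (Pk k N) (Localization.AtPrime (pt (0 : V k N)))
  have h5 : ∀ u, ι u ∈ I.map ι → u ∈ I := fun u hu =>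
    ((loc_mem I 0 u).1 hu).elim fun s hs => h1 s u hs.1 hs.2
  refine ⟨fun e => one_ne_zero ((map_one _).symm.trans (h3 1 (by rw [e]; trivial))),
    fun {u v} huv => ?_⟩
  obtain ⟨𝔞, ma⟩ : ∃ 𝔞 : Ideal (Pk k N), ∀ s, s ∈ 𝔞 ↔ s * v ∈ I :=
    ⟨I.colon {v}, fun s => Submodule.mem_colon_singleton⟩
  obtain ⟨𝔟, mb⟩ : ∃ 𝔟 : Ideal (Pk k N), ∀ s, s ∈ 𝔟 ↔ ∀ t ∈ 𝔞, s * t ∈ I :=
    ⟨I.colon 𝔞, fun s => Submodule.mem_colon⟩
  have hm : (pt (0 : V k N)).map ι = IsLocalRing.maximalIdeal _ :=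
    Localization.AtPrime.map_eq_maximalIdeal
  by_contra! hu
  have ha : 𝔞 ≤ pt 0 := fun s hs => by_contra fun h => hu.2 (h1 s v h ((ma s).1 hs))
  have hb : 𝔟 ≤ pt 0 := fun s hs => by_contra fun h =>
    hu.1 (h1 s u h ((mb s).1 hs u ((ma u).2 huv)))
  refine (h4.split ((Ideal.map_mono ha).trans hm.le) ((Ideal.map_mono hb).trans hm.le) ?_
    fun ⟨p, hp, h5⟩ => not_ch_max ⟨p, ?_, le_trans (by simp) h5⟩).elim
    (fun h => hu.1 (h5 u (h (Ideal.mem_map_of_mem ι ((ma u).2 huv)))))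
    fun h => hu.2 (h5 v (h (Ideal.mem_map_of_mem ι ((mb v).2 fun t ht => ?_))))
  · rw [← Ideal.map_mul]
    refine Ideal.map_mono (Ideal.mul_le.2 fun s hs t ht => ?_)
    rw [mul_comm]
    exact (mb t).1 ht s hs
  · rw [← hm, Ideal.map_le_iff_le_comap]
    rw [← Ideal.map_sup, Ideal.map_le_iff_le_comap] at hp
    refine le_trans ?_ ((Ideal.IsPrime.radical_le_iff inferInstance).2 hp)
    rw [← vanishingIdeal_zeroLocus_eq_radical (K := k)]
    intro g hg x hx
    by_cases h6 : x = 0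
    · rw [h6]
      exact hg
    obtain ⟨s, a1, a2⟩ := off_org (h2 x h6 fun g hg => hx g (Ideal.mem_sup_left ((ma g).2
      (I.mul_mem_right _ hg)))) v fun s hs => hx s (Ideal.mem_sup_left ((ma s).2 hs))
    exact (a1 (hx s (Ideal.mem_sup_right ((mb s).2 fun t ht => a2 t ((ma t).1 ht))))).elim
  · rw [mul_comm]
    exact (ma t).1 ht

end Pool.Agent.Lib.MP_41050a_ag.QM
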