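import Pool.Agent.Lib.MP_41050a_ag.QM.F
import Pool.Agent.Lib.MP_41050a_ag.QM.P

/-! Smooth complete intersections. -/

namespace Pool.Agent.Lib.MP_41050a_ag.QM

open Polynomial NK

variable {k : Type} [Field k] [IsAlgClosed k] [CharZero k] {N c : ℕ} {f : Fin c → Pk k N}
  {d : Fin c → ℕ}

theorem dat (hf : ∀ i, (f i).IsHomogeneous (d i)) (hd : ∀ i, 1 ≤ d i) (ns : CI.NSc f)
    (h : ∑ l, d l + 1 ≤ N) :
    Dat (Ideal.span (Set.range f)) (N - c) f d (N + 1 - ∑ l, d l) := by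
  have hc : c ≤ ∑ i, d i := by simpa using Finset.sum_le_sum (s := Finset.univ) fun i _ => hd i
  have hn : N - c + c = N := by omega
  refine ⟨CI.c_var hf (ci_prime hf hd ns (by omega)) ns, CI.c_dim ns hn, rfl, hf, by omega, fun Λ _ _ _ e F b hF hb => ?_⟩
  rw [CI.c_antiK hf hd ns hn hF hb, Nat.cast_sub (by omega), Nat.cast_add, Nat.cast_one]

end Pool.Agent.Lib.MP_41050a_ag.QM
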